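import Pool.Agent.U913.PL.OfdC

/-!
Project CP, package OFD: off-diagonal terms, assembly.
-/

set_option autoImplicit false

namespace Pool.Agent.U913.PL

open Finset Pool.Agent.H442R2 Pool.Agent.H442R2.KF Pool.Agent.W23.DC Pool.Agent.W23.PL
open Pool.Agent.H442R2.BX.TaskTT (Wt_nonneg Wt_le_one nuS_nonneg nuS_le)

lemma roughs_sub {y y' : ℝ} (hy : y ≤ y') {X X' : ℕ} (hX : X ≤ X') :
    BX.roughs y' X ⊆ BX.roughs y X' := by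
  classical
  intro d hd
  unfold BX.roughs at hd ⊢
  rw [Finset.mem_filter, Finset.mem_Icc] at hd ⊢
  exact ⟨⟨hd.1.1, hd.1.2.trans hX⟩, hd.2.1, fun p hp hpd => lt_of_le_of_lt hy (hd.2.2 p hp hpd)⟩

/-- **OFD** -/
theorem OFD (hTTC : St_TTC) (hRC : BX.St_RC) (hRB : BX.St_RB) : St_OFD := by
  intro θ δ hθ0 hθ hδ
  have hGS := BX.GS
  have hRA := BX.RA
  have hNC := BX.NC hRC hGS
  obtain ⟨ε₀, η₁, hε₀, hη₁, hT⟩ := hTTC θ δ hθ0 hθ hδ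
  obtain ⟨η₀, hη₀, e1, e2, e3⟩ : ∃ η₀ : ℝ, 0 < η₀ ∧ η₀ ≤ 1 / 40 ∧ 4 * η₀ ≤ ε₀ ∧
      4 * η₀ ≤ η₁ / 5 := by
    refine ⟨min (1 / 40) (min (ε₀ / 4) (η₁ / 20)), ?_, min_le_left _ _, ?_, ?_⟩
    · exact lt_min (by norm_num) (lt_min (by positivity) (by positivity))
    · have := (min_le_right (1 / 40 : ℝ) (min (ε₀ / 4) (η₁ / 20))).trans (min_le_left _ _)
      linarith
    · have := (min_le_right (1 / 40 : ℝ) (min (ε₀ / 4) (η₁ / 20))).trans (min_le_right _ _)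
      linarith
  refine ⟨ε₀, η₀, hε₀, hη₀, e1, ?_⟩
  intro ε₁ hε₁ hε₁1
  obtain ⟨CT, hCT, hT'⟩ := hT (ε₁ / 2) (by positivity)
  obtain ⟨NR, C0, hC0, hrc⟩ := hRC (ε₁ / 4) (by positivity)
  obtain ⟨C3, hC3, hrb⟩ := hRB (ε₁ / 4) (by positivity)
  obtain ⟨C5, hC5, hra⟩ := hRA (ε₁ / 4) (by positivity)
  obtain ⟨C2, hC2, hnc⟩ := hNC (ε₁ / 4) (by positivity)
  obtain ⟨Cκ, hCκ, hτ⟩ := H353.divisor_bound_real (ε₁ / 80) (by positivity)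
  obtain ⟨N₃, hN₃⟩ : ∃ N₃ : ℕ, ∀ N : ℕ, N₃ ≤ N → (2 : ℝ) < (N : ℝ) ^ ε₁ := by
    have h := ((tendsto_rpow_atTop hε₁).comp tendsto_natCast_atTop_atTop).eventually
      (Filter.eventually_gt_atTop (2 : ℝ))
    obtain ⟨N₃, h3⟩ := Filter.eventually_atTop.1 h
    exact ⟨N₃, fun N hN => h3 N hN⟩
  obtain ⟨η, hη, hh1, hh2, hh3⟩ : ∃ η : ℝ, 0 < η ∧ η ≤ η₁ / 2 ∧ η ≤ ε₁ / 16 ∧ η ≤ 1 / 10 := by
    refine ⟨min (η₁ / 2) (min (ε₁ / 16) (1 / 10)), ?_, ?_, ?_, ?_⟩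
    · exact lt_min (by positivity) (lt_min (by positivity) (by norm_num))
    · exact min_le_left _ _
    · exact (min_le_right _ _).trans (min_le_left _ _)
    · exact (min_le_right _ _).trans (min_le_right _ _)
  set c1 : ℝ := 4 / (η₁ / 10) ^ 2 with hc1
  set c2 : ℝ := 4 / (ε₁ / 80) ^ 2 with hc2
  set c3 : ℝ := 4 / (1 / 10 : ℝ) ^ 2 with hc3
  have hc10 : 0 < c1 := by positivity
  have hc20 : 0 < c2 := by positivity
  have hc30 : 0 < c3 := by positivity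
  set N₀ := max NR N₃ with hN₀
  set Bs : ℝ := ∑ N ∈ range N₀, (∑' n : ℤ, Wt N n) * ((N : ℝ) ^ 6 * Real.log N ^ 2) with hBs
  have hWs : ∀ N : ℕ, 0 ≤ (∑' n : ℤ, Wt N n) * ((N : ℝ) ^ 6 * Real.log N ^ 2) := fun N =>
    mul_nonneg (tsum_nonneg fun n => Wt_nonneg N n) (by positivity)
  have hBs0 : 0 ≤ Bs := Finset.sum_nonneg fun N _ => hWs N
  refine ⟨η, Bs + (c1 * CT + 2 * Cκ ^ 4 * c2 * (3 * C2 + 28 * C3 + 8 * C5) +
    3 * c3 * ((1 + C5) * (2 * C0 + C5))), hη, by positivity, ?_⟩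
  intro N z D D0 X hN hz hzε hD hX hD0 hXD lam hlam P hP th th' hth hth' _ _ a a' ha ha'
    _ _ haa c c' hc hc' hB hB'
  have hN0 : (0 : ℝ) < N := by exact_mod_cast (by omega : 0 < N)
  have hN1 : (1 : ℝ) ≤ N := by exact_mod_cast (by omega : 1 ≤ N)
  have hNle : ∀ s t : ℝ, s ≤ t → (N : ℝ) ^ s ≤ (N : ℝ) ^ t := fun s t hst =>
    Real.rpow_le_rpow_of_exponent_le hN1 hst
  have hle : ∀ (x : ℕ) (s : ℝ), s ≤ 1 → (x : ℝ) ≤ (N : ℝ) ^ s → x ≤ N := by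
    intro x s hs hx
    have h1 : (x : ℝ) ≤ N := by
      calc (x : ℝ) ≤ (N : ℝ) ^ s := hx
        _ ≤ (N : ℝ) ^ (1 : ℝ) := hNle _ _ hs
        _ = N := Real.rpow_one _
    exact_mod_cast h1
  have hzN : z ≤ N := hle z η₀ (by linarith) hz
  have hDN : D ≤ N := hle D η₀ (by linarith) hD
  have hXN : X ≤ N := hle X θ (by linarith) hX
  have hNη : (1 : ℝ) ≤ (N : ℝ) ^ (1 - η) := Real.one_le_rpow hN1 (by linarith)
  set L := Real.log N with hL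
  have hL0 : 0 ≤ L := Real.log_natCast_nonneg N
  have hl := hlam.sw.bd
  have hDpos : ∀ d, c d ≠ 0 → D0 < d := fun d hd => (hB d hd).2.1
  have hDpos' : ∀ d, c' d ≠ 0 → D0 < d := fun d hd => (hB' d hd).2.1
  have hrf : ∀ n, |BX.rf c X a n * BX.rf c' X a' n| ≤ (X : ℝ) ^ 2 := by
    intro n
    rw [abs_mul, sq]
    exact mul_le_mul (BX.TaskTT.abs_rf_le c hc.bd X a n) (BX.TaskTT.abs_rf_le c' hc'.bd X a' n)
      (abs_nonneg _) (by positivity)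
  have hGt : ∀ n, |GG lam th th' z D a a' n| ≤ (z : ℝ) ^ 2 * (D : ℝ) ^ 2 * L ^ 2 := fun n =>
    GG_le_triv lam th th' z D a a' n hl L hL0 hth.bd hth'.bd
  have hform : ∀ n : ℤ, Wt N n * BX.nuS lam z n * (Ev th D (n - a) * Ev th' D (n - a')) *
      (BX.rf c X a n * BX.rf c' X a' n) =
      Wt N n * (GG lam th th' z D a a' n * (BX.rf c X a n * BX.rf c' X a' n)) := by
    intro n; unfold GG; ring
  rw [tsum_congr hform]
  by_cases hsmall : N < N₀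
  · -- small N
    have h1 := (KF.TaskS.summable_Wt N (by omega)).hasSum.mul_right ((N : ℝ) ^ 6 * L ^ 2)
    have h2 : |∑' n : ℤ, Wt N n * (GG lam th th' z D a a' n *
        (BX.rf c X a n * BX.rf c' X a' n))| ≤ (∑' n : ℤ, Wt N n) * ((N : ℝ) ^ 6 * L ^ 2) := by
      rw [← Real.norm_eq_abs]
      refine tsum_of_norm_bounded h1 fun n => ?_
      rw [Real.norm_eq_abs, abs_mul, abs_of_nonneg (Wt_nonneg N n)]
      refine mul_le_mul_of_nonneg_left ?_ (Wt_nonneg N n)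
      rw [abs_mul]
      have hzN' : (z : ℝ) ≤ N := by exact_mod_cast hzN
      have hDN' : (D : ℝ) ≤ N := by exact_mod_cast hDN
      have hXN' : (X : ℝ) ≤ N := by exact_mod_cast hXN
      calc |GG lam th th' z D a a' n| * |BX.rf c X a n * BX.rf c' X a' n|
          ≤ ((z : ℝ) ^ 2 * (D : ℝ) ^ 2 * L ^ 2) * (X : ℝ) ^ 2 :=
            mul_le_mul (hGt n) (hrf n) (abs_nonneg _) (by positivity)
        _ ≤ ((N : ℝ) ^ 2 * (N : ℝ) ^ 2 * L ^ 2) * (N : ℝ) ^ 2 := by gcongr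
        _ = (N : ℝ) ^ 6 * L ^ 2 := by ring
    have h3 : (∑' n : ℤ, Wt N n) * ((N : ℝ) ^ 6 * L ^ 2) ≤ Bs :=
      Finset.single_le_sum (f := fun N : ℕ => (∑' n : ℤ, Wt N n) *
        ((N : ℝ) ^ 6 * Real.log N ^ 2)) (fun N _ => hWs N) (Finset.mem_range.2 hsmall)
    have h4 : 0 ≤ c1 * CT + 2 * Cκ ^ 4 * c2 * (3 * C2 + 28 * C3 + 8 * C5) +
      3 * c3 * ((1 + C5) * (2 * C0 + C5)) := by positivity
    calc _ ≤ Bs := h2.trans h3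
      _ ≤ Bs + (c1 * CT + 2 * Cκ ^ 4 * c2 * (3 * C2 + 28 * C3 + 8 * C5) +
          3 * c3 * ((1 + C5) * (2 * C0 + C5))) := by linarith
      _ ≤ _ := le_mul_of_one_le_right (by positivity) hNη
  push Not at hsmall
  have hNR : NR ≤ N := (le_max_left _ _).trans hsmall
  have hN3 : N₃ ≤ N := (le_max_right _ _).trans hsmall
  have h2ε : (2 : ℝ) < (N : ℝ) ^ ε₁ := hN₃ N hN3
  have haN : |(a : ℝ)| ≤ N := by
    have : (0 : ℝ) ≤ (N : ℝ) ^ (1 / 2 : ℝ) := by positivity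
    linarith
  have haN' : |(a' : ℝ)| ≤ N := by
    have : (0 : ℝ) ≤ (N : ℝ) ^ (1 / 2 : ℝ) := by positivity
    linarith
  -- the decomposition
  have hs1 : Summable (fun n : ℤ => Wt N n * (GG lam th th' z D a a' n *
      AA c c' D0 X a a' n)) := by
    refine sumW N (by omega) (fun n => GG lam th th' z D a a' n * AA c c' D0 X a a' n)
      (((z : ℝ) ^ 2 * (D : ℝ) ^ 2 * L ^ 2) * (X : ℝ) ^ 2) (fun n => ?_)
    rw [abs_mul]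
    exact mul_le_mul (hGt n) (AA_le c c' hc.bd hc'.bd D0 X a a' n) (abs_nonneg _) (by positivity)
  have hs2 : Summable (fun n : ℤ => Wt N n * (GG lam th th' z D a a' n *
      (BX.rf c X a n * BX.rf c' X a' n - AA c c' D0 X a a' n))) := by
    refine sumW N (by omega) (fun n => GG lam th th' z D a a' n *
      (BX.rf c X a n * BX.rf c' X a' n - AA c c' D0 X a a' n))
      (((z : ℝ) ^ 2 * (D : ℝ) ^ 2 * L ^ 2) * ((X : ℝ) ^ 2 + (X : ℝ) ^ 2)) (fun n => ?_)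
    rw [abs_mul]
    refine mul_le_mul (hGt n) ?_ (abs_nonneg _) (by positivity)
    exact (abs_sub _ _).trans (add_le_add (hrf n) (AA_le c c' hc.bd hc'.bd D0 X a a' n))
  have hdec : ∑' n : ℤ, Wt N n * (GG lam th th' z D a a' n *
      (BX.rf c X a n * BX.rf c' X a' n)) =
      ∑' n : ℤ, Wt N n * (GG lam th th' z D a a' n * AA c c' D0 X a a' n) +
      ∑' n : ℤ, Wt N n * (GG lam th th' z D a a' n *
        (BX.rf c X a n * BX.rf c' X a' n - AA c c' D0 X a a' n)) := by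
    rw [← Summable.tsum_add hs1 hs2]
    refine tsum_congr fun n => ?_
    ring
  rw [hdec]
  refine (abs_add_le _ _).trans ?_
  -- first part
  have hfirst : |∑' n : ℤ, Wt N n * (GG lam th th' z D a a' n * AA c c' D0 X a a' n)| ≤
      (z : ℝ) ^ 2 * (D : ℝ) ^ 2 * (L ^ 2 * (CT * (N : ℝ) ^ (1 - η₁))) := by
    have h := part_one N z D D0 X (by omega) a a' c c' lam th th' hc.bd hc'.bd hl L hth.bd
      hth'.bd (CT * (N : ℝ) ^ (1 - η₁)) (by positivity)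
      (fun q₁ q₂ e e' h1 h3 h4 h5 k1 k2 k3 k4 k5 k6 k7 k8 b hb hbQ =>
        quad_bound θ δ ε₀ η₁ ε₁ η₀ CT e2 hT' N z D D0 X hN hz hzε hD hX hD0 hXD h2ε lam hlam P hP
          L th th' hth hth' a a' ha ha' haa c c' hc hc' hB hB' q₁ q₂ e e' h1 h3 h4 h5 k1 k2 k3 k4
          k5 k6 k7 k8 b hb hbQ)
    refine le_trans (le_of_eq ?_) h
    congr 1
    refine tsum_congr fun n => ?_
    unfold GG
    ring
  -- second part
  set M : ℕ := 2 * N with hM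
  have hMr : ((M : ℕ) : ℝ) = 2 * N := by rw [hM]; push_cast; ring
  have hM0 : (0 : ℝ) < (M : ℝ) := by rw [hMr]; positivity
  have hNM : (N : ℝ) ≤ (M : ℝ) := by rw [hMr]; linarith
  set y : ℝ := (M : ℝ) ^ (ε₁ / 4) with hy
  have hyN : y ≤ (N : ℝ) ^ (ε₁ / 2) := by
    have h1 : (M : ℝ) ≤ (N : ℝ) ^ (2 : ℝ) := by
      rw [hMr, Real.rpow_two, sq]
      have : (2 : ℝ) ≤ N := by exact_mod_cast hN
      nlinarith
    calc y ≤ ((N : ℝ) ^ (2 : ℝ)) ^ (ε₁ / 4) := Real.rpow_le_rpow hM0.le h1 (by positivity)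
      _ = (N : ℝ) ^ (ε₁ / 2) := by
          rw [← Real.rpow_mul hN0.le]; congr 1; ring
  have hcR : ∀ u : ℕ → ℝ, BX.CofR ((N : ℝ) ^ (ε₁ / 2)) X u → ∀ d, u d ≠ 0 → d ∈ BX.roughs y X := by
    intro u hu d hd
    classical
    obtain ⟨g1, g2⟩ := hu.supp d hd
    unfold BX.roughs
    rw [Finset.mem_filter, Finset.mem_Icc]
    exact ⟨⟨g2.1.le, g1⟩, g2.1, fun p hp hpd => lt_of_le_of_lt hyN (g2.2 p hp hpd)⟩
  have hXM : X ≤ M := by omega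
  have hra' : ∑ d ∈ BX.roughs y X, 1 / (d : ℝ) ≤ C5 := by
    refine le_trans ?_ (hra M (by omega))
    exact Finset.sum_le_sum_of_subset_of_nonneg (roughs_sub le_rfl hXM) fun _ _ _ => by positivity
  have hrb' : ∑ d ∈ BX.roughs y X, ∑ d' ∈ (BX.roughs y X).filter (fun d' => ¬ Nat.Coprime d d'),
      1 / ((d : ℝ) * d') ≤ C3 * (M : ℝ) ^ (-(ε₁ / 4 / 2)) := by
    refine le_trans ?_ (hrb M (by omega))
    calc ∑ d ∈ BX.roughs y X, ∑ d' ∈ (BX.roughs y X).filter (fun d' => ¬ Nat.Coprime d d'),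
          1 / ((d : ℝ) * d')
        ≤ ∑ d ∈ BX.roughs y X, ∑ d' ∈ (BX.roughs y M).filter (fun d' => ¬ Nat.Coprime d d'),
          1 / ((d : ℝ) * d') := by
          refine Finset.sum_le_sum fun d _ => ?_
          exact Finset.sum_le_sum_of_subset_of_nonneg
            (Finset.filter_subset_filter _ (roughs_sub le_rfl hXM)) fun _ _ _ => by positivity
      _ ≤ _ := Finset.sum_le_sum_of_subset_of_nonneg (roughs_sub le_rfl hXM)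
            fun _ _ _ => Finset.sum_nonneg fun _ _ => by positivity
  have hnc' := hnc M 1 X (by omega) le_rfl hXM a a' (haN.trans hNM) (haN'.trans hNM) haa
  obtain ⟨hS1, hS2⟩ := nc_sum M (by omega) hGS y X a a' _ _ _ hnc' hrb' hra'
  have hrc' : ∀ b m : ℤ, |(b : ℝ)| ≤ N → |(m : ℝ)| ≤ N → m ≠ b →
      ((BX.rd y X (m - b)).card : ℝ) ≤ 2 * C0 := by
    intro b m hb hm hmb
    have g1 := hrc M X (by omega) b m (hb.trans hNM) hmb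
    have g2 : (1 + |(m : ℝ)| / M) ^ (1 / 4 : ℝ) ≤ 2 := by
      have g3 : 1 + |(m : ℝ)| / M ≤ 2 := by
        have : |(m : ℝ)| / M ≤ 1 := by
          rw [div_le_one hM0]; exact hm.trans hNM
        linarith
      have g4 : (1 : ℝ) ≤ 1 + |(m : ℝ)| / M := by
        have : 0 ≤ |(m : ℝ)| / M := by positivity
        linarith
      calc (1 + |(m : ℝ)| / M) ^ (1 / 4 : ℝ) ≤ (1 + |(m : ℝ)| / M) ^ (1 : ℝ) :=
            Real.rpow_le_rpow_of_exponent_le g4 (by norm_num)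
        _ = 1 + |(m : ℝ)| / M := Real.rpow_one _
        _ ≤ 2 := g3
    calc ((BX.rd y X (m - b)).card : ℝ) ≤ C0 * (1 + |(m : ℝ)| / M) ^ (1 / 4 : ℝ) := g1
      _ ≤ C0 * 2 := mul_le_mul_of_nonneg_left g2 hC0.le
      _ = 2 * C0 := by ring
  have hpt := fun n : ℤ => second_pt N D0 X y a a' n haa c c' hc.bd hc'.bd hDpos hDpos'
    (hcR c hc) (hcR c' hc') C0 C5 hC0 hC5 hrc' hra' haN haN'
  have hG : ∀ n : ℤ, n ≠ 0 → n ≠ a → n ≠ a' → Wt N n * |GG lam th th' z D a a' n| ≤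
      (2 * Cκ ^ 4 * L ^ 2 * (N : ℝ) ^ (4 * (ε₁ / 80))) * Wt (2 * N) n := by
    intro n h1 h2 h3
    exact GG_le (ε₁ / 80) Cκ (by positivity) (by linarith) hCκ hτ N z D (by omega) lam th th' hl
      L hL0 hth.bd hth'.bd a a' n haN haN' h1 h2 h3 ((hGS N (by omega)).1 n)
  have hsecond := second_sum N z D D0 X (by omega) y a a' c c' lam th th' hl L hL0 hth.bd hth'.bd
    (2 * Cκ ^ 4 * L ^ 2 * (N : ℝ) ^ (4 * (ε₁ / 80))) (((X : ℝ) + C5) * (2 * C0 + C5)) _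
    (by positivity) (by positivity) haN haN' hG (fun n => (hpt n).1) (fun n => (hpt n).2) hS1 hS2
  -- exponents
  have hz2 : (z : ℝ) ^ 2 * (D : ℝ) ^ 2 ≤ (N : ℝ) ^ (4 * η₀) := by
    calc (z : ℝ) ^ 2 * (D : ℝ) ^ 2 ≤ ((N : ℝ) ^ η₀) ^ 2 * ((N : ℝ) ^ η₀) ^ 2 := by gcongr
      _ = (N : ℝ) ^ (4 * η₀) := by
        rw [← Real.rpow_natCast ((N : ℝ) ^ η₀) 2, ← Real.rpow_mul hN0.le, ← Real.rpow_add hN0]
        congr 1
        push_cast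
        ring
  have g1 : (z : ℝ) ^ 2 * (D : ℝ) ^ 2 * (L ^ 2 * (CT * (N : ℝ) ^ (1 - η₁))) ≤
      c1 * CT * (N : ℝ) ^ (1 - η) := by
    have l1 := log_sq_le (η₁ / 10) (by positivity) N
    calc (z : ℝ) ^ 2 * (D : ℝ) ^ 2 * (L ^ 2 * (CT * (N : ℝ) ^ (1 - η₁)))
        ≤ (N : ℝ) ^ (4 * η₀) * ((c1 * (N : ℝ) ^ (η₁ / 10)) * (CT * (N : ℝ) ^ (1 - η₁))) := by
          gcongr
      _ = c1 * CT * ((N : ℝ) ^ (4 * η₀) * (N : ℝ) ^ (η₁ / 10) * (N : ℝ) ^ (1 - η₁)) := by ring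
      _ = c1 * CT * (N : ℝ) ^ (4 * η₀ + η₁ / 10 + (1 - η₁)) := by
          rw [← Real.rpow_add hN0, ← Real.rpow_add hN0]
      _ ≤ c1 * CT * (N : ℝ) ^ (1 - η) :=
          mul_le_mul_of_nonneg_left (hNle _ _ (by linarith)) (by positivity)
  have hK : 2 * Cκ ^ 4 * L ^ 2 * (N : ℝ) ^ (4 * (ε₁ / 80)) ≤
      2 * Cκ ^ 4 * c2 * (N : ℝ) ^ (ε₁ / 16) := by
    have l1 := log_sq_le (ε₁ / 80) (by positivity) N
    calc 2 * Cκ ^ 4 * L ^ 2 * (N : ℝ) ^ (4 * (ε₁ / 80))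
        ≤ 2 * Cκ ^ 4 * (c2 * (N : ℝ) ^ (ε₁ / 80)) * (N : ℝ) ^ (4 * (ε₁ / 80)) := by gcongr
      _ = 2 * Cκ ^ 4 * c2 * ((N : ℝ) ^ (ε₁ / 80) * (N : ℝ) ^ (4 * (ε₁ / 80))) := by ring
      _ = 2 * Cκ ^ 4 * c2 * (N : ℝ) ^ (ε₁ / 16) := by
          rw [← Real.rpow_add hN0]
          congr 2
          ring
  have hM1 : (M : ℝ) ^ (1 - ε₁ / 4) ≤ 2 * (N : ℝ) ^ (1 - ε₁ / 4) := by
    rw [hMr, Real.mul_rpow (by norm_num) hN0.le]
    refine mul_le_mul_of_nonneg_right ?_ (by positivity)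
    calc (2 : ℝ) ^ (1 - ε₁ / 4) ≤ (2 : ℝ) ^ (1 : ℝ) :=
          Real.rpow_le_rpow_of_exponent_le (by norm_num) (by linarith)
      _ = 2 := Real.rpow_one _
  have hM2 : (M : ℝ) ^ (-(ε₁ / 4 / 2)) ≤ (N : ℝ) ^ (-(ε₁ / 8)) := by
    calc (M : ℝ) ^ (-(ε₁ / 4 / 2)) ≤ (N : ℝ) ^ (-(ε₁ / 4 / 2)) :=
          Real.antitoneOn_rpow_Ioi_of_exponent_nonpos (by linarith) (Set.mem_Ioi.2 hN0)
            (Set.mem_Ioi.2 hM0) hNM
      _ = (N : ℝ) ^ (-(ε₁ / 8)) := by congr 1; ring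
  have hM3 : (12 * (M : ℝ) + 4) * (C3 * (M : ℝ) ^ (-(ε₁ / 4 / 2))) ≤
      28 * C3 * (N : ℝ) ^ (1 - ε₁ / 8) := by
    have h1 : 12 * (M : ℝ) + 4 ≤ 28 * N := by rw [hMr]; linarith
    calc (12 * (M : ℝ) + 4) * (C3 * (M : ℝ) ^ (-(ε₁ / 4 / 2)))
        ≤ (28 * N) * (C3 * (N : ℝ) ^ (-(ε₁ / 8))) := by gcongr
      _ = 28 * C3 * ((N : ℝ) ^ (1 : ℝ) * (N : ℝ) ^ (-(ε₁ / 8))) := by rw [Real.rpow_one]; ring
      _ = 28 * C3 * (N : ℝ) ^ (1 - ε₁ / 8) := by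
          rw [← Real.rpow_add hN0]
          congr 2
  have hS : C2 * ((M : ℝ) ^ (1 - ε₁ / 4) + X) + (12 * (M : ℝ) + 4) *
      (C3 * (M : ℝ) ^ (-(ε₁ / 4 / 2))) + 8 * X * C5 ≤
      C2 * (2 * (N : ℝ) ^ (1 - ε₁ / 4) + (N : ℝ) ^ θ) + 28 * C3 * (N : ℝ) ^ (1 - ε₁ / 8) +
        8 * (N : ℝ) ^ θ * C5 := by
    gcongr
  have hexp : ∀ s : ℝ, ε₁ / 16 + s ≤ 1 - η → (N : ℝ) ^ (ε₁ / 16) * (N : ℝ) ^ s ≤
      (N : ℝ) ^ (1 - η) := by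
    intro s hs
    rw [← Real.rpow_add hN0]
    exact hNle _ _ hs
  have x1 := hexp (1 - ε₁ / 4) (by linarith)
  have x2 := hexp θ (by linarith)
  have x3 := hexp (1 - ε₁ / 8) (by linarith)
  have g2 : (2 * Cκ ^ 4 * L ^ 2 * (N : ℝ) ^ (4 * (ε₁ / 80))) *
      (C2 * ((M : ℝ) ^ (1 - ε₁ / 4) + X) + (12 * (M : ℝ) + 4) *
      (C3 * (M : ℝ) ^ (-(ε₁ / 4 / 2))) + 8 * X * C5) ≤
      2 * Cκ ^ 4 * c2 * (3 * C2 + 28 * C3 + 8 * C5) * (N : ℝ) ^ (1 - η) := by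
    calc (2 * Cκ ^ 4 * L ^ 2 * (N : ℝ) ^ (4 * (ε₁ / 80))) *
        (C2 * ((M : ℝ) ^ (1 - ε₁ / 4) + X) + (12 * (M : ℝ) + 4) *
        (C3 * (M : ℝ) ^ (-(ε₁ / 4 / 2))) + 8 * X * C5)
        ≤ (2 * Cκ ^ 4 * c2 * (N : ℝ) ^ (ε₁ / 16)) *
        (C2 * (2 * (N : ℝ) ^ (1 - ε₁ / 4) + (N : ℝ) ^ θ) + 28 * C3 * (N : ℝ) ^ (1 - ε₁ / 8) +
        8 * (N : ℝ) ^ θ * C5) := mul_le_mul hK hS (by positivity) (by positivity)
      _ = 2 * Cκ ^ 4 * c2 * (C2 * (2 * ((N : ℝ) ^ (ε₁ / 16) * (N : ℝ) ^ (1 - ε₁ / 4)) +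
          (N : ℝ) ^ (ε₁ / 16) * (N : ℝ) ^ θ) +
          28 * C3 * ((N : ℝ) ^ (ε₁ / 16) * (N : ℝ) ^ (1 - ε₁ / 8)) +
          8 * C5 * ((N : ℝ) ^ (ε₁ / 16) * (N : ℝ) ^ θ)) := by ring
      _ ≤ 2 * Cκ ^ 4 * c2 * (C2 * (2 * (N : ℝ) ^ (1 - η) + (N : ℝ) ^ (1 - η)) +
          28 * C3 * (N : ℝ) ^ (1 - η) + 8 * C5 * (N : ℝ) ^ (1 - η)) := by gcongr
      _ = _ := by ring
  have g3 : 3 * ((z : ℝ) ^ 2 * (D : ℝ) ^ 2 * L ^ 2 * (((X : ℝ) + C5) * (2 * C0 + C5))) ≤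
      3 * c3 * ((1 + C5) * (2 * C0 + C5)) * (N : ℝ) ^ (1 - η) := by
    have l1 := log_sq_le (1 / 10) (by norm_num) N
    have hNθ : (1 : ℝ) ≤ (N : ℝ) ^ θ := Real.one_le_rpow hN1 hθ0.le
    have hXC : (X : ℝ) + C5 ≤ (1 + C5) * (N : ℝ) ^ θ := by nlinarith
    calc 3 * ((z : ℝ) ^ 2 * (D : ℝ) ^ 2 * L ^ 2 * (((X : ℝ) + C5) * (2 * C0 + C5)))
        ≤ 3 * ((N : ℝ) ^ (4 * η₀) * (c3 * (N : ℝ) ^ (1 / 10 : ℝ)) *
          (((1 + C5) * (N : ℝ) ^ θ) * (2 * C0 + C5))) := by gcongr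
      _ = 3 * c3 * ((1 + C5) * (2 * C0 + C5)) *
          ((N : ℝ) ^ (4 * η₀) * (N : ℝ) ^ (1 / 10 : ℝ) * (N : ℝ) ^ θ) := by ring
      _ = 3 * c3 * ((1 + C5) * (2 * C0 + C5)) * (N : ℝ) ^ (4 * η₀ + 1 / 10 + θ) := by
          rw [← Real.rpow_add hN0, ← Real.rpow_add hN0]
      _ ≤ _ := mul_le_mul_of_nonneg_left (hNle _ _ (by linarith)) (by positivity)
  have htot : (c1 * CT + 2 * Cκ ^ 4 * c2 * (3 * C2 + 28 * C3 + 8 * C5) +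
      3 * c3 * ((1 + C5) * (2 * C0 + C5))) * (N : ℝ) ^ (1 - η) ≤
      (Bs + (c1 * CT + 2 * Cκ ^ 4 * c2 * (3 * C2 + 28 * C3 + 8 * C5) +
      3 * c3 * ((1 + C5) * (2 * C0 + C5)))) * (N : ℝ) ^ (1 - η) := by
    refine mul_le_mul_of_nonneg_right ?_ (by positivity)
    linarith
  refine le_trans ?_ htot
  have hf := hfirst.trans g1
  have hs := hsecond.trans (add_le_add g2 g3)
  calc _ ≤ c1 * CT * (N : ℝ) ^ (1 - η) +
        (2 * Cκ ^ 4 * c2 * (3 * C2 + 28 * C3 + 8 * C5) * (N : ℝ) ^ (1 - η) +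
        3 * c3 * ((1 + C5) * (2 * C0 + C5)) * (N : ℝ) ^ (1 - η)) := add_le_add hf hs
    _ = _ := by ring

end Pool.Agent.U913.PL
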