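import Pool.Agent.W23.PL.Defs
import Pool.Agent.H442R2.BX.Tt
import Pool.Agent.H442R2.KF.Summ

/-!
Project CP, package OFD: off-diagonal terms, first part (the coprime pairs).
-/

set_option autoImplicit false

namespace Pool.Agent.U913.PL

open Finset Pool.Agent.H442R2 Pool.Agent.H442R2.KF Pool.Agent.W23.DC Pool.Agent.W23.PL
open Pool.Agent.H442R2.BX.TaskTT (Wt_nonneg Wt_le_one abs_dl_le nuS_nonneg nuS_le)

lemma sumW (N : ℕ) (hN : 1 ≤ N) (F : ℤ → ℝ) (M : ℝ) (h : ∀ n, |F n| ≤ M) :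
    Summable (fun n => Wt N n * F n) := by
  refine Summable.of_norm_bounded ((KF.TaskS.summable_Wt N hN).mul_right M) fun n => ?_
  rw [Real.norm_eq_abs, abs_mul, abs_of_nonneg (Wt_nonneg N n)]
  exact mul_le_mul_of_nonneg_left (h n) (Wt_nonneg N n)

lemma sumIte (N : ℕ) (hN : 1 ≤ N) (p : ℤ → Prop) [DecidablePred p] (F : ℤ → ℝ) (M : ℝ)
    (h : ∀ n, |F n| ≤ M) : Summable (fun n => (if p n then Wt N n else 0) * F n) := by
  have hM : 0 ≤ M := (abs_nonneg _).trans (h 0)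
  have h1 := sumW N hN (fun n => if p n then F n else 0) M (fun n => by
    split_ifs
    · exact h n
    · simpa using hM)
  refine h1.congr fun n => ?_
  split_ifs <;> simp

/-- the coprime pairs -/
noncomputable def AA (c c' : ℕ → ℝ) (D0 X : ℕ) (a a' n : ℤ) : ℝ :=
  ∑ d ∈ Ioc D0 X, ∑ d' ∈ (Ioc D0 X).filter (fun d' => Nat.Coprime d d'),
    c d * c' d' * (BX.dl d (n - a) * BX.dl d' (n - a'))

/-- the pairs with a common factor -/
noncomputable def BN (c c' : ℕ → ℝ) (D0 X : ℕ) (a a' n : ℤ) : ℝ :=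
  ∑ d ∈ Ioc D0 X, ∑ d' ∈ (Ioc D0 X).filter (fun d' => ¬ Nat.Coprime d d'),
    c d * c' d' * (BX.dl d (n - a) * BX.dl d' (n - a'))

lemma dl_prod_le (c c' : ℕ → ℝ) (hc : ∀ d, |c d| ≤ 1) (hc' : ∀ d, |c' d| ≤ 1) (d d' : ℕ)
    (hd : 1 ≤ d) (hd' : 1 ≤ d') (m m' : ℤ) :
    |c d * c' d' * (BX.dl d m * BX.dl d' m')| ≤ 1 := by
  rw [abs_mul, abs_mul, abs_mul]
  have h1 : |c d| * |c' d'| ≤ 1 := by
    calc |c d| * |c' d'| ≤ 1 * 1 := mul_le_mul (hc d) (hc' d') (abs_nonneg _) zero_le_one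
      _ = 1 := one_mul 1
  have h2 : |BX.dl d m| * |BX.dl d' m'| ≤ 1 := by
    calc |BX.dl d m| * |BX.dl d' m'| ≤ 1 * 1 :=
          mul_le_mul (abs_dl_le d hd m) (abs_dl_le d' hd' m') (abs_nonneg _) zero_le_one
      _ = 1 := one_mul 1
  calc |c d| * |c' d'| * (|BX.dl d m| * |BX.dl d' m'|) ≤ 1 * 1 :=
        mul_le_mul h1 h2 (by positivity) zero_le_one
    _ = 1 := one_mul 1

lemma AA_le (c c' : ℕ → ℝ) (hc : ∀ d, |c d| ≤ 1) (hc' : ∀ d, |c' d| ≤ 1) (D0 X : ℕ)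
    (a a' n : ℤ) : |AA c c' D0 X a a' n| ≤ (X : ℝ) ^ 2 := by
  unfold AA
  refine (Finset.abs_sum_le_sum_abs _ _).trans ?_
  have hcard : ((Ioc D0 X).card : ℝ) ≤ X := by
    rw [Nat.card_Ioc]; exact_mod_cast Nat.sub_le _ _
  calc ∑ d ∈ Ioc D0 X, |∑ d' ∈ (Ioc D0 X).filter (fun d' => Nat.Coprime d d'),
        c d * c' d' * (BX.dl d (n - a) * BX.dl d' (n - a'))|
      ≤ ∑ d ∈ Ioc D0 X, (X : ℝ) := by
        refine Finset.sum_le_sum fun d hd => ?_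
        refine (Finset.abs_sum_le_sum_abs _ _).trans ?_
        have hd1 : 1 ≤ d := by
          rw [Finset.mem_Ioc] at hd; omega
        calc ∑ d' ∈ (Ioc D0 X).filter (fun d' => Nat.Coprime d d'),
              |c d * c' d' * (BX.dl d (n - a) * BX.dl d' (n - a'))|
            ≤ ∑ d' ∈ (Ioc D0 X).filter (fun d' => Nat.Coprime d d'), (1 : ℝ) := by
              refine Finset.sum_le_sum fun d' hd' => ?_
              have hd1' : 1 ≤ d' := by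
                rw [Finset.mem_filter, Finset.mem_Ioc] at hd'; omega
              exact dl_prod_le c c' hc hc' d d' hd1 hd1' _ _
          _ = (((Ioc D0 X).filter (fun d' => Nat.Coprime d d')).card : ℝ) := by simp
          _ ≤ ((Ioc D0 X).card : ℝ) := by exact_mod_cast Finset.card_filter_le _ _
          _ ≤ X := hcard
    _ = ((Ioc D0 X).card : ℝ) * X := by rw [Finset.sum_const, nsmul_eq_mul]
    _ ≤ (X : ℝ) * X := mul_le_mul_of_nonneg_right hcard (by positivity)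
    _ = (X : ℝ) ^ 2 := by ring

lemma one_quad (N D0 X : ℕ) (hN : 1 ≤ N) (a a' : ℤ) (c c' : ℕ → ℝ) (hc : ∀ d, |c d| ≤ 1)
    (hc' : ∀ d, |c' d| ≤ 1) (q₁ q₂ e e' : ℕ) (T : ℝ) (hT : 0 ≤ T) (hq₁ : 0 < q₁) (hq₂ : 0 < q₂)
    (he : 0 < e) (he' : 0 < e')
    (hTT : ∀ b : ℤ, 0 ≤ b → b < ((Nat.lcm (Nat.lcm q₁ q₂) (Nat.lcm e e') : ℕ) : ℤ) →
      |∑ d ∈ Ioc D0 X, ∑ d' ∈ (Ioc D0 X).filter (fun d' => Nat.Coprime d d'), c d * c' d' *
      ∑' n : ℤ, (if ((Nat.lcm (Nat.lcm q₁ q₂) (Nat.lcm e e') : ℕ) : ℤ) ∣ n - b then Wt N n else 0) *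
        (BX.dl d (n - a) * BX.dl d' (n - a'))| ≤ T) :
    |∑' n : ℤ, (if ((q₁ : ℤ) ∣ n ∧ (q₂ : ℤ) ∣ n ∧ (e : ℤ) ∣ n - a ∧ (e' : ℤ) ∣ n - a') then Wt N n
      else 0) * AA c c' D0 X a a' n| ≤ T := by
  classical
  set Q := Nat.lcm (Nat.lcm q₁ q₂) (Nat.lcm e e') with hQ
  have hQ0 : 0 < Q := Nat.lcm_pos (Nat.lcm_pos hq₁ hq₂) (Nat.lcm_pos he he')
  by_cases hex : ∃ n₀ : ℤ, (q₁ : ℤ) ∣ n₀ ∧ (q₂ : ℤ) ∣ n₀ ∧ (e : ℤ) ∣ n₀ - a ∧ (e' : ℤ) ∣ n₀ - a'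
  · obtain ⟨n₀, h1, h2, h3, h4⟩ := hex
    set b : ℤ := n₀ % (Q : ℤ) with hb
    have hb0 : 0 ≤ b := Int.emod_nonneg _ (by exact_mod_cast hQ0.ne')
    have hbQ : b < (Q : ℤ) := Int.emod_lt_of_pos _ (by exact_mod_cast hQ0)
    have hQb : (Q : ℤ) ∣ n₀ - b := by
      rw [hb]; exact Int.dvd_self_sub_emod
    have hd1 : (q₁ : ℤ) ∣ (Q : ℤ) := by
      exact_mod_cast (Nat.dvd_lcm_left q₁ q₂).trans (Nat.dvd_lcm_left _ _)
    have hd2 : (q₂ : ℤ) ∣ (Q : ℤ) := by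
      exact_mod_cast (Nat.dvd_lcm_right q₁ q₂).trans (Nat.dvd_lcm_left _ _)
    have hd3 : (e : ℤ) ∣ (Q : ℤ) := by
      exact_mod_cast (Nat.dvd_lcm_left e e').trans (Nat.dvd_lcm_right _ _)
    have hd4 : (e' : ℤ) ∣ (Q : ℤ) := by
      exact_mod_cast (Nat.dvd_lcm_right e e').trans (Nat.dvd_lcm_right _ _)
    have hiff : ∀ n : ℤ, ((q₁ : ℤ) ∣ n ∧ (q₂ : ℤ) ∣ n ∧ (e : ℤ) ∣ n - a ∧ (e' : ℤ) ∣ n - a') ↔
        (Q : ℤ) ∣ n - b := by
      intro n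
      constructor
      · rintro ⟨g1, g2, g3, g4⟩
        have k1 : (q₁ : ℤ) ∣ n - n₀ := dvd_sub g1 h1
        have k2 : (q₂ : ℤ) ∣ n - n₀ := dvd_sub g2 h2
        have k3 : (e : ℤ) ∣ n - n₀ := by
          have := dvd_sub g3 h3; rwa [show n - a - (n₀ - a) = n - n₀ by ring] at this
        have k4 : (e' : ℤ) ∣ n - n₀ := by
          have := dvd_sub g4 h4; rwa [show n - a' - (n₀ - a') = n - n₀ by ring] at this
        have k5 : (Q : ℤ) ∣ n - n₀ := by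
          rw [Int.natCast_dvd] at k1 k2 k3 k4 ⊢
          exact Nat.lcm_dvd (Nat.lcm_dvd k1 k2) (Nat.lcm_dvd k3 k4)
        have := dvd_add k5 hQb
        rwa [show n - n₀ + (n₀ - b) = n - b by ring] at this
      · intro g
        have k : (Q : ℤ) ∣ n - n₀ := by
          have := dvd_sub g hQb
          rwa [show n - b - (n₀ - b) = n - n₀ by ring] at this
        refine ⟨?_, ?_, ?_, ?_⟩
        · have := dvd_add (hd1.trans k) h1
          rwa [show n - n₀ + n₀ = n by ring] at this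
        · have := dvd_add (hd2.trans k) h2
          rwa [show n - n₀ + n₀ = n by ring] at this
        · have := dvd_add (hd3.trans k) h3
          rwa [show n - n₀ + (n₀ - a) = n - a by ring] at this
        · have := dvd_add (hd4.trans k) h4
          rwa [show n - n₀ + (n₀ - a') = n - a' by ring] at this
    have hfun : ∀ n : ℤ, (if ((q₁ : ℤ) ∣ n ∧ (q₂ : ℤ) ∣ n ∧ (e : ℤ) ∣ n - a ∧ (e' : ℤ) ∣ n - a')
        then Wt N n else 0) * AA c c' D0 X a a' n =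
        ∑ d ∈ Ioc D0 X, ∑ d' ∈ (Ioc D0 X).filter (fun d' => Nat.Coprime d d'), c d * c' d' *
        ((if (Q : ℤ) ∣ n - b then Wt N n else 0) * (BX.dl d (n - a) * BX.dl d' (n - a'))) := by
      intro n
      unfold AA
      rw [Finset.mul_sum]
      refine Finset.sum_congr rfl fun d _ => ?_
      rw [Finset.mul_sum]
      refine Finset.sum_congr rfl fun d' _ => ?_
      by_cases g : (Q : ℤ) ∣ n - b
      · rw [if_pos g, if_pos ((hiff n).2 g)]; ring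
      · rw [if_neg g, if_neg (fun k => g ((hiff n).1 k))]; ring
    have hs : ∀ d ∈ Ioc D0 X, ∀ d' ∈ (Ioc D0 X).filter (fun d' => Nat.Coprime d d'),
        Summable (fun n : ℤ => c d * c' d' * ((if (Q : ℤ) ∣ n - b then Wt N n else 0) *
          (BX.dl d (n - a) * BX.dl d' (n - a')))) := by
      intro d hd d' hd'
      have hd1 : 1 ≤ d := by
        rw [Finset.mem_Ioc] at hd; omega
      have hd1' : 1 ≤ d' := by
        rw [Finset.mem_filter, Finset.mem_Ioc] at hd'; omega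
      refine (sumIte N hN (fun n => (Q : ℤ) ∣ n - b) (fun n => BX.dl d (n - a) * BX.dl d' (n - a')) 1
        (fun n => ?_)).mul_left _
      rw [abs_mul]
      calc |BX.dl d (n - a)| * |BX.dl d' (n - a')| ≤ 1 * 1 :=
            mul_le_mul (abs_dl_le d hd1 _) (abs_dl_le d' hd1' _) (abs_nonneg _) zero_le_one
        _ = 1 := one_mul 1
    have hts : ∑' n : ℤ, (if ((q₁ : ℤ) ∣ n ∧ (q₂ : ℤ) ∣ n ∧ (e : ℤ) ∣ n - a ∧ (e' : ℤ) ∣ n - a')
        then Wt N n else 0) * AA c c' D0 X a a' n =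
        ∑ d ∈ Ioc D0 X, ∑ d' ∈ (Ioc D0 X).filter (fun d' => Nat.Coprime d d'), c d * c' d' *
        ∑' n : ℤ, (if (Q : ℤ) ∣ n - b then Wt N n else 0) *
          (BX.dl d (n - a) * BX.dl d' (n - a')) := by
      rw [tsum_congr hfun, Summable.tsum_finsetSum fun d hd =>
        summable_sum fun d' hd' => hs d hd d' hd']
      refine Finset.sum_congr rfl fun d hd => ?_
      rw [Summable.tsum_finsetSum fun d' hd' => hs d hd d' hd']
      refine Finset.sum_congr rfl fun d' hd' => ?_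
      rw [tsum_mul_left]
    rw [hts]
    exact hTT b hb0 hbQ
  · push Not at hex
    have h0 : ∀ n : ℤ, (if ((q₁ : ℤ) ∣ n ∧ (q₂ : ℤ) ∣ n ∧ (e : ℤ) ∣ n - a ∧ (e' : ℤ) ∣ n - a')
        then Wt N n else 0) * AA c c' D0 X a a' n = 0 := by
      intro n
      rw [if_neg, zero_mul]
      rintro ⟨g1, g2, g3, g4⟩
      exact hex n g1 g2 g3 g4
    rw [tsum_congr h0, tsum_zero, abs_zero]
    exact hT

lemma quad_prod (s t : Finset ℕ) (f g h k : ℕ → ℝ) :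
    (∑ i ∈ s, f i) * (∑ i ∈ s, g i) * ((∑ i ∈ t, h i) * (∑ i ∈ t, k i)) =
      ∑ p ∈ (s ×ˢ s) ×ˢ (t ×ˢ t), (f p.1.1 * g p.1.2) * (h p.2.1 * k p.2.2) := by
  rw [Finset.sum_product]
  simp only
  rw [Finset.sum_mul_sum s s, Finset.sum_mul_sum t t, ← Finset.sum_product', ← Finset.sum_product',
    Finset.sum_mul_sum]

lemma nuS_eq (lam : ℕ → ℝ) (z : ℕ) (n : ℤ) :
    BX.nuS lam z n = (∑ q ∈ Icc 1 z, lam q * (if (q : ℤ) ∣ n then 1 else 0)) *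
      (∑ q ∈ Icc 1 z, lam q * (if (q : ℤ) ∣ n then 1 else 0)) := by
  unfold BX.nuS
  rw [sq, Finset.sum_filter]
  have h : ∑ q ∈ Icc 1 z, (if (q : ℤ) ∣ n then lam q else 0) =
      ∑ q ∈ Icc 1 z, lam q * (if (q : ℤ) ∣ n then 1 else 0) := by
    refine Finset.sum_congr rfl fun q _ => ?_
    split_ifs <;> simp
  rw [h]

lemma expand (N z D : ℕ) (lam th th' : ℕ → ℝ) (a a' n : ℤ) (A : ℝ) :
    Wt N n * BX.nuS lam z n * (Ev th D (n - a) * Ev th' D (n - a')) * A =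
      ∑ p ∈ (Icc 1 z ×ˢ Icc 1 z) ×ˢ (Icc 1 D ×ˢ Icc 1 D),
        (lam p.1.1 * lam p.1.2 * (th p.2.1 * th' p.2.2)) *
        ((if ((p.1.1 : ℤ) ∣ n ∧ (p.1.2 : ℤ) ∣ n ∧ (p.2.1 : ℤ) ∣ n - a ∧ (p.2.2 : ℤ) ∣ n - a')
          then Wt N n else 0) * A) := by
  have h1 : Wt N n * BX.nuS lam z n * (Ev th D (n - a) * Ev th' D (n - a')) * A =
      (BX.nuS lam z n * (Ev th D (n - a) * Ev th' D (n - a'))) * (Wt N n * A) := by ring
  rw [h1, nuS_eq]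
  unfold Ev
  rw [quad_prod, Finset.sum_mul]
  refine Finset.sum_congr rfl fun p _ => ?_
  by_cases g1 : (p.1.1 : ℤ) ∣ n <;> by_cases g2 : (p.1.2 : ℤ) ∣ n <;>
    by_cases g3 : (p.2.1 : ℤ) ∣ n - a <;> by_cases g4 : (p.2.2 : ℤ) ∣ n - a' <;>
    simp [g1, g2, g3, g4]

/-- the coprime pairs, all quadruples -/
lemma part_one (N z D D0 X : ℕ) (hN : 1 ≤ N) (a a' : ℤ) (c c' lam th th' : ℕ → ℝ)
    (hc : ∀ d, |c d| ≤ 1) (hc' : ∀ d, |c' d| ≤ 1) (hl : ∀ q, |lam q| ≤ 1) (L : ℝ)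
    (hth : ∀ e, |th e| ≤ L) (hth' : ∀ e, |th' e| ≤ L) (T : ℝ) (hT : 0 ≤ T)
    (hq : ∀ q₁ q₂ e e' : ℕ, lam q₁ ≠ 0 → lam q₂ ≠ 0 → th e ≠ 0 → th' e' ≠ 0 → 1 ≤ q₁ → 1 ≤ q₂ →
      1 ≤ e → 1 ≤ e' → q₁ ≤ z → q₂ ≤ z → e ≤ D → e' ≤ D →
      ∀ b : ℤ, 0 ≤ b → b < ((Nat.lcm (Nat.lcm q₁ q₂) (Nat.lcm e e') : ℕ) : ℤ) →
      |∑ d ∈ Ioc D0 X, ∑ d' ∈ (Ioc D0 X).filter (fun d' => Nat.Coprime d d'), c d * c' d' *
      ∑' n : ℤ, (if ((Nat.lcm (Nat.lcm q₁ q₂) (Nat.lcm e e') : ℕ) : ℤ) ∣ n - b then Wt N n else 0) *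
        (BX.dl d (n - a) * BX.dl d' (n - a'))| ≤ T) :
    |∑' n : ℤ, Wt N n * BX.nuS lam z n * (Ev th D (n - a) * Ev th' D (n - a')) *
      AA c c' D0 X a a' n| ≤ (z : ℝ) ^ 2 * (D : ℝ) ^ 2 * (L ^ 2 * T) := by
  classical
  have hL : 0 ≤ L := (abs_nonneg _).trans (hth 0)
  rw [tsum_congr fun n => expand N z D lam th th' a a' n (AA c c' D0 X a a' n)]
  rw [Summable.tsum_finsetSum fun p _ => (sumIte N hN _ _ _ (AA_le c c' hc hc' D0 X a a')).mul_left _]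
  refine (Finset.abs_sum_le_sum_abs _ _).trans ?_
  have hterm : ∀ p ∈ (Icc 1 z ×ˢ Icc 1 z) ×ˢ (Icc 1 D ×ˢ Icc 1 D),
      |∑' n : ℤ, (lam p.1.1 * lam p.1.2 * (th p.2.1 * th' p.2.2)) *
        ((if ((p.1.1 : ℤ) ∣ n ∧ (p.1.2 : ℤ) ∣ n ∧ (p.2.1 : ℤ) ∣ n - a ∧ (p.2.2 : ℤ) ∣ n - a')
          then Wt N n else 0) * AA c c' D0 X a a' n)| ≤ L ^ 2 * T := by
    intro p hp
    simp only [Finset.mem_product, Finset.mem_Icc] at hp
    obtain ⟨⟨⟨h1, h2⟩, h3, h4⟩, ⟨h5, h6⟩, h7, h8⟩ := hp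
    rw [tsum_mul_left, abs_mul]
    by_cases h0 : lam p.1.1 * lam p.1.2 * (th p.2.1 * th' p.2.2) = 0
    · rw [h0, abs_zero, zero_mul]; positivity
    · have k1 : lam p.1.1 ≠ 0 := fun k => h0 (by rw [k]; ring)
      have k2 : lam p.1.2 ≠ 0 := fun k => h0 (by rw [k]; ring)
      have k3 : th p.2.1 ≠ 0 := fun k => h0 (by rw [k]; ring)
      have k4 : th' p.2.2 ≠ 0 := fun k => h0 (by rw [k]; ring)
      have g1 := one_quad N D0 X hN a a' c c' hc hc' p.1.1 p.1.2 p.2.1 p.2.2 T hT (by omega)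
        (by omega) (by omega) (by omega)
        (hq _ _ _ _ k1 k2 k3 k4 h1 h3 h5 h7 h2 h4 h6 h8)
      have g2 : |lam p.1.1 * lam p.1.2 * (th p.2.1 * th' p.2.2)| ≤ L ^ 2 := by
        rw [abs_mul, abs_mul, abs_mul]
        calc |lam p.1.1| * |lam p.1.2| * (|th p.2.1| * |th' p.2.2|) ≤ (1 * 1) * (L * L) := by
              have := hl p.1.1
              have := hl p.1.2
              have := hth p.2.1
              have := hth' p.2.2
              gcongr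
          _ = L ^ 2 := by ring
      exact mul_le_mul g2 g1 (abs_nonneg _) (by positivity)
  refine (Finset.sum_le_sum hterm).trans (le_of_eq ?_)
  rw [Finset.sum_const, nsmul_eq_mul]
  simp only [Finset.card_product, Nat.card_Icc, Nat.add_sub_cancel]
  push_cast
  ring

end Pool.Agent.U913.PL
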