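import Pool.Agent.U913.PL.OfdA
import Pool.Agent.H442R2.BX.Nc
import Pool.Agent.H442R2.BX.Pb

/-!
Project CP, package OFD: off-diagonal terms, second part (the pairs with a common factor).
-/

set_option autoImplicit false

namespace Pool.Agent.U913.PL

open Finset Pool.Agent.H442R2 Pool.Agent.H442R2.KF Pool.Agent.W23.DC Pool.Agent.W23.PL
open Pool.Agent.H442R2.BX.TaskTT (Wt_nonneg Wt_le_one nuS_nonneg nuS_le)

lemma card_dvd_le (D : ℕ) (m : ℤ) (hm : m ≠ 0) :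
    (((Icc 1 D).filter (fun e : ℕ => (e : ℤ) ∣ m)).card : ℝ) ≤ (m.natAbs.divisors.card : ℝ) := by
  have h : (Icc 1 D).filter (fun e : ℕ => (e : ℤ) ∣ m) ⊆ m.natAbs.divisors := by
    intro e he
    rw [Finset.mem_filter] at he
    rw [Nat.mem_divisors]
    exact ⟨Int.natCast_dvd.1 he.2, by simpa using hm⟩
  exact_mod_cast Finset.card_le_card h

lemma Ev_le_card (th : ℕ → ℝ) (L : ℝ) (hth : ∀ e, |th e| ≤ L) (D : ℕ) (m : ℤ) :
    |Ev th D m| ≤ L * (((Icc 1 D).filter (fun e : ℕ => (e : ℤ) ∣ m)).card : ℝ) := by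
  classical
  unfold Ev
  refine (Finset.abs_sum_le_sum_abs _ _).trans ?_
  have h : ∀ e ∈ Icc 1 D, |th e * (if (e : ℤ) ∣ m then 1 else 0)| ≤
      L * (if (e : ℤ) ∣ m then 1 else 0) := by
    intro e _
    split_ifs
    · simpa using hth e
    · simp
  refine (Finset.sum_le_sum h).trans (le_of_eq ?_)
  rw [← Finset.mul_sum, Finset.sum_boole]

lemma Ev_le_D (th : ℕ → ℝ) (L : ℝ) (hL : 0 ≤ L) (hth : ∀ e, |th e| ≤ L) (D : ℕ) (m : ℤ) :
    |Ev th D m| ≤ L * D := by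
  refine (Ev_le_card th L hth D m).trans (mul_le_mul_of_nonneg_left ?_ hL)
  have h : ((Icc 1 D).filter (fun e : ℕ => (e : ℤ) ∣ m)).card ≤ D := by
    refine (Finset.card_filter_le _ _).trans ?_
    simp
  exact_mod_cast h

lemma nuS_le_card (lam : ℕ → ℝ) (hl : ∀ q, |lam q| ≤ 1) (z : ℕ) (n : ℤ) :
    BX.nuS lam z n ≤ (((Icc 1 z).filter (fun e : ℕ => (e : ℤ) ∣ n)).card : ℝ) ^ 2 := by
  unfold BX.nuS
  rw [← sq_abs]
  refine pow_le_pow_left₀ (abs_nonneg _) ?_ 2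
  refine (Finset.abs_sum_le_sum_abs _ _).trans ?_
  refine (Finset.sum_le_sum fun q _ => hl q).trans (le_of_eq ?_)
  simp

/-- the weight without the Gaussian -/
noncomputable def GG (lam th th' : ℕ → ℝ) (z D : ℕ) (a a' n : ℤ) : ℝ :=
  BX.nuS lam z n * (Ev th D (n - a) * Ev th' D (n - a'))

lemma GG_le_triv (lam th th' : ℕ → ℝ) (z D : ℕ) (a a' n : ℤ) (hl : ∀ q, |lam q| ≤ 1) (L : ℝ)
    (hL : 0 ≤ L) (hth : ∀ e, |th e| ≤ L) (hth' : ∀ e, |th' e| ≤ L) :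
    |GG lam th th' z D a a' n| ≤ (z : ℝ) ^ 2 * (D : ℝ) ^ 2 * L ^ 2 := by
  unfold GG
  rw [abs_mul, abs_mul, abs_of_nonneg (nuS_nonneg _ _ _)]
  calc BX.nuS lam z n * (|Ev th D (n - a)| * |Ev th' D (n - a')|)
      ≤ (z : ℝ) ^ 2 * ((L * D) * (L * D)) := by
        refine mul_le_mul (nuS_le lam hl z n) ?_ (by positivity) (by positivity)
        exact mul_le_mul (Ev_le_D th L hL hth D _) (Ev_le_D th' L hL hth' D _) (abs_nonneg _)
          (by positivity)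
    _ = _ := by ring

lemma GG_le (κ Cκ : ℝ) (hκ : 0 < κ) (h4 : 4 * κ ≤ 1) (hC : 0 < Cκ)
    (hτ : ∀ m : ℕ, m ≠ 0 → (m.divisors.card : ℝ) ≤ Cκ * (m : ℝ) ^ κ) (N z D : ℕ) (hN : 1 ≤ N)
    (lam th th' : ℕ → ℝ) (hl : ∀ q, |lam q| ≤ 1) (L : ℝ) (hL : 0 ≤ L) (hth : ∀ e, |th e| ≤ L)
    (hth' : ∀ e, |th' e| ≤ L) (a a' n : ℤ) (ha : |(a : ℝ)| ≤ N) (ha' : |(a' : ℝ)| ≤ N)
    (hn : n ≠ 0) (hna : n ≠ a) (hna' : n ≠ a')
    (hGS : Wt N n * (1 + |(n : ℝ)| / N) ≤ 2 * Wt (2 * N) n) :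
    Wt N n * |GG lam th th' z D a a' n| ≤
      2 * Cκ ^ 4 * L ^ 2 * (N : ℝ) ^ (4 * κ) * Wt (2 * N) n := by
  have hN0 : (0 : ℝ) < N := by exact_mod_cast hN
  set t : ℝ := 1 + |(n : ℝ)| / N with ht
  have ht1 : 1 ≤ t := by
    have : 0 ≤ |(n : ℝ)| / N := by positivity
    linarith
  have hNt : (N : ℝ) * t = N + |(n : ℝ)| := by
    rw [ht]; field_simp
  have hdiv : ∀ m : ℤ, m ≠ 0 → |(m : ℝ)| ≤ N * t →
      (m.natAbs.divisors.card : ℝ) ≤ Cκ * ((N : ℝ) * t) ^ κ := by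
    intro m hm hmt
    refine (hτ m.natAbs (by simpa using hm)).trans ?_
    refine mul_le_mul_of_nonneg_left ?_ hC.le
    refine Real.rpow_le_rpow (by positivity) ?_ hκ.le
    rw [Nat.cast_natAbs, Int.cast_abs]
    exact hmt
  have e1 := hdiv n hn (by rw [hNt]; linarith)
  have e2 := hdiv (n - a) (sub_ne_zero.2 hna) (by
    rw [hNt]; push_cast
    have := abs_sub (n : ℝ) (a : ℝ)
    linarith)
  have e3 := hdiv (n - a') (sub_ne_zero.2 hna') (by
    rw [hNt]; push_cast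
    have := abs_sub (n : ℝ) (a' : ℝ)
    linarith)
  set B := Cκ * ((N : ℝ) * t) ^ κ with hB
  have hB0 : 0 ≤ B := by positivity
  have f1 : BX.nuS lam z n ≤ B ^ 2 :=
    (nuS_le_card lam hl z n).trans
      (pow_le_pow_left₀ (by positivity) ((card_dvd_le z n hn).trans e1) 2)
  have f2 : |Ev th D (n - a)| ≤ L * B :=
    (Ev_le_card th L hth D _).trans
      (mul_le_mul_of_nonneg_left ((card_dvd_le D _ (sub_ne_zero.2 hna)).trans e2) hL)
  have f3 : |Ev th' D (n - a')| ≤ L * B :=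
    (Ev_le_card th' L hth' D _).trans
      (mul_le_mul_of_nonneg_left ((card_dvd_le D _ (sub_ne_zero.2 hna')).trans e3) hL)
  have f4 : |GG lam th th' z D a a' n| ≤ B ^ 2 * ((L * B) * (L * B)) := by
    unfold GG
    rw [abs_mul, abs_mul, abs_of_nonneg (nuS_nonneg _ _ _)]
    refine mul_le_mul f1 ?_ (by positivity) (by positivity)
    exact mul_le_mul f2 f3 (abs_nonneg _) (by positivity)
  have hB4 : B ^ 4 ≤ Cκ ^ 4 * ((N : ℝ) ^ (4 * κ) * t) := by
    rw [hB, mul_pow]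
    refine mul_le_mul_of_nonneg_left ?_ (by positivity)
    rw [← Real.rpow_natCast, ← Real.rpow_mul (by positivity), Real.mul_rpow hN0.le (by linarith)]
    have h1 : κ * ((4 : ℕ) : ℝ) = 4 * κ := by push_cast; ring
    rw [h1]
    refine mul_le_mul_of_nonneg_left ?_ (by positivity)
    calc t ^ (4 * κ) ≤ t ^ (1 : ℝ) := Real.rpow_le_rpow_of_exponent_le ht1 h4
      _ = t := Real.rpow_one t
  calc Wt N n * |GG lam th th' z D a a' n| ≤ Wt N n * (B ^ 2 * ((L * B) * (L * B))) :=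
        mul_le_mul_of_nonneg_left f4 (Wt_nonneg _ _)
    _ = L ^ 2 * (Wt N n * B ^ 4) := by ring
    _ ≤ L ^ 2 * (Wt N n * (Cκ ^ 4 * ((N : ℝ) ^ (4 * κ) * t))) := by
        refine mul_le_mul_of_nonneg_left ?_ (by positivity)
        exact mul_le_mul_of_nonneg_left hB4 (Wt_nonneg _ _)
    _ = Cκ ^ 4 * L ^ 2 * (N : ℝ) ^ (4 * κ) * (Wt N n * t) := by ring
    _ ≤ Cκ ^ 4 * L ^ 2 * (N : ℝ) ^ (4 * κ) * (2 * Wt (2 * N) n) :=
        mul_le_mul_of_nonneg_left hGS (by positivity)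
    _ = _ := by ring

lemma sum_le_supp (S R : Finset ℕ) (f g : ℕ → ℝ) (h1 : ∀ x ∈ S, x ∉ R → f x = 0)
    (h2 : ∀ x ∈ S, x ∈ R → f x ≤ g x) (h3 : ∀ x ∈ R, 0 ≤ g x) :
    ∑ x ∈ S, f x ≤ ∑ x ∈ R, g x := by
  classical
  have e1 : ∑ x ∈ S.filter (· ∈ R), f x = ∑ x ∈ S, f x :=
    Finset.sum_subset (Finset.filter_subset _ _) fun x hx hx' => h1 x hx fun hR =>
      hx' (Finset.mem_filter.2 ⟨hx, hR⟩)
  rw [← e1]
  calc ∑ x ∈ S.filter (· ∈ R), f x ≤ ∑ x ∈ S.filter (· ∈ R), g x :=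
        Finset.sum_le_sum fun x hx => h2 x (Finset.mem_filter.1 hx).1 (Finset.mem_filter.1 hx).2
    _ ≤ ∑ x ∈ R, g x :=
        Finset.sum_le_sum_of_subset_of_nonneg (fun x hx => (Finset.mem_filter.1 hx).2)
          fun x hx _ => h3 x hx

/-- the bound of `dl` -/
noncomputable def gd (d : ℕ) (m : ℤ) : ℝ := (if (d : ℤ) ∣ m then 1 else 0) + 1 / (d : ℝ)

lemma gd_nonneg (d : ℕ) (m : ℤ) : 0 ≤ gd d m := by
  unfold gd
  have : (0 : ℝ) ≤ 1 / (d : ℝ) := by positivity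
  split_ifs <;> linarith

lemma gd_le (d : ℕ) (m : ℤ) : gd d m ≤ 2 := by
  unfold gd
  have h : (1 : ℝ) / (d : ℝ) ≤ 1 := by
    rcases Nat.eq_zero_or_pos d with h | h
    · rw [h]; simp
    · have : (1 : ℝ) ≤ d := by exact_mod_cast h
      rw [div_le_one (by linarith)]; exact this
  split_ifs <;> linarith

lemma pair_bound (S R : Finset ℕ) (pr : ℕ → ℕ → Prop) [∀ d d', Decidable (pr d d')]
    (c c' : ℕ → ℝ) (hc : ∀ d, |c d| ≤ 1) (hc' : ∀ d, |c' d| ≤ 1) (hR : ∀ d, c d ≠ 0 → d ∈ R)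
    (hR' : ∀ d, c' d ≠ 0 → d ∈ R) (m m' : ℤ) :
    |∑ d ∈ S, ∑ d' ∈ S.filter (fun d' => pr d d'), c d * c' d' * (BX.dl d m * BX.dl d' m')| ≤
      ∑ d ∈ R, ∑ d' ∈ R.filter (fun d' => pr d d'), gd d m * gd d' m' := by
  have hF : ∀ d d', |c d * c' d' * (BX.dl d m * BX.dl d' m')| ≤ gd d m * gd d' m' := by
    intro d d'
    rw [abs_mul, abs_mul, abs_mul]
    have h1 : |c d| * |c' d'| ≤ 1 := by
      calc |c d| * |c' d'| ≤ 1 * 1 := mul_le_mul (hc d) (hc' d') (abs_nonneg _) zero_le_one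
        _ = 1 := one_mul 1
    have h2 : |BX.dl d m| * |BX.dl d' m'| ≤ gd d m * gd d' m' :=
      mul_le_mul (BX.TaskPB.abs_dl_le d m) (BX.TaskPB.abs_dl_le d' m') (abs_nonneg _)
        (gd_nonneg d m)
    calc |c d| * |c' d'| * (|BX.dl d m| * |BX.dl d' m'|) ≤ 1 * (gd d m * gd d' m') :=
          mul_le_mul h1 h2 (by positivity) zero_le_one
      _ = _ := one_mul _
  refine (Finset.abs_sum_le_sum_abs _ _).trans ?_
  refine sum_le_supp S R _ _ ?_ ?_ ?_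
  · intro d _ hd
    have h0 : c d = 0 := by
      by_contra h; exact hd (hR d h)
    rw [Finset.sum_eq_zero fun d' _ => by rw [h0]; ring, abs_zero]
  · intro d _ _
    refine (Finset.abs_sum_le_sum_abs _ _).trans ?_
    refine sum_le_supp _ _ _ _ ?_ ?_ ?_
    · intro d' hd' hd2
      have h0 : c' d' = 0 := by
        by_contra h
        exact hd2 (Finset.mem_filter.2 ⟨hR' d' h, (Finset.mem_filter.1 hd').2⟩)
      rw [h0, mul_zero, zero_mul, abs_zero]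
    · intro d' _ _
      exact hF d d'
    · intro d' _
      exact mul_nonneg (gd_nonneg _ _) (gd_nonneg _ _)
  · intro d _
    exact Finset.sum_nonneg fun d' _ => mul_nonneg (gd_nonneg _ _) (gd_nonneg _ _)

lemma all_bound (S R : Finset ℕ) (pr : ℕ → ℕ → Prop) [∀ d d', Decidable (pr d d')]
    (c c' : ℕ → ℝ) (hc : ∀ d, |c d| ≤ 1) (hc' : ∀ d, |c' d| ≤ 1) (hR : ∀ d, c d ≠ 0 → d ∈ R)
    (hR' : ∀ d, c' d ≠ 0 → d ∈ R) (m m' : ℤ) :
    |∑ d ∈ S, ∑ d' ∈ S.filter (fun d' => pr d d'), c d * c' d' * (BX.dl d m * BX.dl d' m')| ≤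
      (∑ d ∈ R, gd d m) * (∑ d ∈ R, gd d m') := by
  refine (pair_bound S R pr c c' hc hc' hR hR' m m').trans ?_
  rw [Finset.sum_mul_sum]
  refine Finset.sum_le_sum fun d _ => ?_
  exact Finset.sum_le_sum_of_subset_of_nonneg (Finset.filter_subset _ _) fun d' _ _ =>
    mul_nonneg (gd_nonneg _ _) (gd_nonneg _ _)

lemma sum_gd (y : ℝ) (X : ℕ) (m : ℤ) :
    ∑ d ∈ BX.roughs y X, gd d m = ((BX.rd y X m).card : ℝ) + ∑ d ∈ BX.roughs y X, 1 / (d : ℝ) := by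
  classical
  unfold gd
  rw [Finset.sum_add_distrib]
  congr 1
  unfold BX.rd
  rw [Finset.sum_boole]

/-- the sum over `n` of the bounds for the pairs with a common factor -/
lemma nc_sum (M : ℕ) (hM : 1 ≤ M) (hGS : BX.St_GS) (y : ℝ) (X : ℕ) (a a' : ℤ) (BNC BRB BRA : ℝ)
    (hNC : ∑ d ∈ BX.roughs y X, ∑ d' ∈ (BX.roughs y X).filter (fun d' => ¬ Nat.Coprime d d'),
      BX.SE M a a' 1 d d' ≤ BNC)
    (hRB : ∑ d ∈ BX.roughs y X, ∑ d' ∈ (BX.roughs y X).filter (fun d' => ¬ Nat.Coprime d d'),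
      1 / ((d : ℝ) * d') ≤ BRB)
    (hRA : ∑ d ∈ BX.roughs y X, 1 / (d : ℝ) ≤ BRA) :
    Summable (fun n : ℤ => Wt M n * ∑ d ∈ BX.roughs y X,
      ∑ d' ∈ (BX.roughs y X).filter (fun d' => ¬ Nat.Coprime d d'), gd d (n - a) * gd d' (n - a')) ∧
    ∑' n : ℤ, Wt M n * ∑ d ∈ BX.roughs y X,
      ∑ d' ∈ (BX.roughs y X).filter (fun d' => ¬ Nat.Coprime d d'), gd d (n - a) * gd d' (n - a') ≤
      BNC + (12 * M + 4) * BRB + 8 * X * BRA := by
  classical
  set R := BX.roughs y X with hRdef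
  have hR1 : ∀ d ∈ R, 1 ≤ d := by
    intro d hd
    rw [hRdef] at hd
    unfold BX.roughs at hd
    exact (Finset.mem_Icc.1 (Finset.mem_filter.1 hd).1).1
  have hM0 : (0 : ℝ) < M := by exact_mod_cast hM
  have hsum : ∀ d d' : ℕ, Summable (fun n : ℤ => Wt M n * (gd d (n - a) * gd d' (n - a'))) := by
    intro d d'
    refine sumW M hM (fun n => gd d (n - a) * gd d' (n - a')) 4 (fun n => ?_)
    rw [abs_of_nonneg (mul_nonneg (gd_nonneg _ _) (gd_nonneg _ _))]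
    calc gd d (n - a) * gd d' (n - a') ≤ 2 * 2 :=
          mul_le_mul (gd_le _ _) (gd_le _ _) (gd_nonneg _ _) (by norm_num)
      _ = 4 := by norm_num
  have hfun : ∀ n : ℤ, Wt M n * ∑ d ∈ R, ∑ d' ∈ R.filter (fun d' => ¬ Nat.Coprime d d'),
      gd d (n - a) * gd d' (n - a') = ∑ d ∈ R, ∑ d' ∈ R.filter (fun d' => ¬ Nat.Coprime d d'),
      Wt M n * (gd d (n - a) * gd d' (n - a')) := by
    intro n
    rw [Finset.mul_sum]
    refine Finset.sum_congr rfl fun d _ => ?_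
    rw [Finset.mul_sum]
  have hS : Summable (fun n : ℤ => Wt M n * ∑ d ∈ R,
      ∑ d' ∈ R.filter (fun d' => ¬ Nat.Coprime d d'), gd d (n - a) * gd d' (n - a')) := by
    have h0 : Summable (fun n : ℤ => ∑ d ∈ R, ∑ d' ∈ R.filter (fun d' => ¬ Nat.Coprime d d'),
        Wt M n * (gd d (n - a) * gd d' (n - a'))) :=
      summable_sum fun d _ => summable_sum fun d' _ => hsum d d'
    exact h0.congr fun n => (hfun n).symm
  refine ⟨hS, ?_⟩
  rw [tsum_congr hfun, Summable.tsum_finsetSum fun d _ => summable_sum fun d' _ => hsum d d']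
  -- one pair
  have hone : ∀ d ∈ R, ∀ d' ∈ R, ∑' n : ℤ, Wt M n * (gd d (n - a) * gd d' (n - a')) ≤
      BX.SE M a a' 1 d d' + (12 * M + 4) * (1 / ((d : ℝ) * d')) + (4 * (1 / (d : ℝ)) +
        4 * (1 / (d' : ℝ))) := by
    intro d hd d' hd'
    have hd1 : (1 : ℝ) ≤ d := by exact_mod_cast hR1 d hd
    have hd1' : (1 : ℝ) ≤ d' := by exact_mod_cast hR1 d' hd'
    have hd0 : (0 : ℝ) < d := by linarith
    have hd0' : (0 : ℝ) < d' := by linarith
    have s1 := BX.TaskNC.summable_ite M hM (fun n => (d : ℤ) ∣ n - a ∧ (d' : ℤ) ∣ n - a')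
    have s2 := BX.TaskNC.summable_ite M hM (fun n => (d : ℤ) ∣ n - a)
    have s3 := BX.TaskNC.summable_ite M hM (fun n => (d' : ℤ) ∣ n - a')
    have s4 := KF.TaskS.summable_Wt M hM
    have hpt : ∀ n : ℤ, Wt M n * (gd d (n - a) * gd d' (n - a')) =
        (if ((d : ℤ) ∣ n - a ∧ (d' : ℤ) ∣ n - a') then Wt M n else 0) +
        (if (d : ℤ) ∣ n - a then Wt M n else 0) * (1 / (d' : ℝ)) +
        (if (d' : ℤ) ∣ n - a' then Wt M n else 0) * (1 / (d : ℝ)) +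
        Wt M n * (1 / ((d : ℝ) * d')) := by
      intro n
      unfold gd
      by_cases g1 : (d : ℤ) ∣ n - a <;> by_cases g2 : (d' : ℤ) ∣ n - a' <;>
        simp only [g1, g2, if_true, if_false, and_self, and_true, and_false, false_and] <;>
        field_simp <;> ring
    have hSE : ∑' n : ℤ, (if ((d : ℤ) ∣ n - a ∧ (d' : ℤ) ∣ n - a') then Wt M n else 0) =
        BX.SE M a a' 1 d d' := by
      unfold BX.SE
      refine tsum_congr fun n => ?_
      simp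
    rw [tsum_congr hpt, Summable.tsum_add ((s1.add (s2.mul_right _)).add (s3.mul_right _))
      (s4.mul_right _), Summable.tsum_add (s1.add (s2.mul_right _)) (s3.mul_right _),
      Summable.tsum_add s1 (s2.mul_right _), tsum_mul_right, tsum_mul_right, tsum_mul_right, hSE]
    have g1 := (hGS M hM).2 d a (hR1 d hd)
    have g2 := (hGS M hM).2 d' a' (hR1 d' hd')
    have g3 : ∑' n : ℤ, Wt M n ≤ 4 * ((M : ℝ) + 1) := by
      have h := (hGS M hM).2 1 a le_rfl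
      simp only [Nat.cast_one, div_one] at h
      refine le_trans (le_of_eq ?_) h
      refine tsum_congr fun n => ?_
      rw [if_pos (one_dvd _)]
    have k1 : (∑' n : ℤ, if (d : ℤ) ∣ n - a then Wt M n else 0) * (1 / (d' : ℝ)) ≤
        4 * ((M : ℝ) / d + 1) * (1 / (d' : ℝ)) := mul_le_mul_of_nonneg_right g1 (by positivity)
    have k2 : (∑' n : ℤ, if (d' : ℤ) ∣ n - a' then Wt M n else 0) * (1 / (d : ℝ)) ≤
        4 * ((M : ℝ) / d' + 1) * (1 / (d : ℝ)) := mul_le_mul_of_nonneg_right g2 (by positivity)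
    have k3 : (∑' n : ℤ, Wt M n) * (1 / ((d : ℝ) * d')) ≤ 4 * ((M : ℝ) + 1) * (1 / ((d : ℝ) * d')) :=
      mul_le_mul_of_nonneg_right g3 (by positivity)
    have hid : 4 * ((M : ℝ) / d + 1) * (1 / (d' : ℝ)) + 4 * ((M : ℝ) / d' + 1) * (1 / (d : ℝ)) +
        4 * ((M : ℝ) + 1) * (1 / ((d : ℝ) * d')) = (12 * M + 4) * (1 / ((d : ℝ) * d')) +
        (4 * (1 / (d : ℝ)) + 4 * (1 / (d' : ℝ))) := by
      field_simp
      ring
    linarith
  have hcardR : (R.card : ℝ) ≤ X := by exact_mod_cast BX.TaskNC.card_roughs y X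
  have hRA0 : 0 ≤ BRA := (Finset.sum_nonneg fun d _ => by positivity).trans hRA
  calc ∑ d ∈ R, ∑' n : ℤ, ∑ d' ∈ R.filter (fun d' => ¬ Nat.Coprime d d'),
        Wt M n * (gd d (n - a) * gd d' (n - a'))
      = ∑ d ∈ R, ∑ d' ∈ R.filter (fun d' => ¬ Nat.Coprime d d'),
        ∑' n : ℤ, Wt M n * (gd d (n - a) * gd d' (n - a')) := by
        refine Finset.sum_congr rfl fun d _ => ?_
        rw [Summable.tsum_finsetSum fun d' _ => hsum d d']
    _ ≤ ∑ d ∈ R, ∑ d' ∈ R.filter (fun d' => ¬ Nat.Coprime d d'),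
        (BX.SE M a a' 1 d d' + (12 * M + 4) * (1 / ((d : ℝ) * d')) + (4 * (1 / (d : ℝ)) +
        4 * (1 / (d' : ℝ)))) :=
        Finset.sum_le_sum fun d hd => Finset.sum_le_sum fun d' hd' =>
          hone d hd d' (Finset.mem_filter.1 hd').1
    _ = ∑ d ∈ R, ∑ d' ∈ R.filter (fun d' => ¬ Nat.Coprime d d'), BX.SE M a a' 1 d d' +
        (12 * M + 4) * ∑ d ∈ R, ∑ d' ∈ R.filter (fun d' => ¬ Nat.Coprime d d'),
          1 / ((d : ℝ) * d') +
        ∑ d ∈ R, ∑ d' ∈ R.filter (fun d' => ¬ Nat.Coprime d d'),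
          (4 * (1 / (d : ℝ)) + 4 * (1 / (d' : ℝ))) := by
        rw [Finset.mul_sum, ← Finset.sum_add_distrib, ← Finset.sum_add_distrib]
        refine Finset.sum_congr rfl fun d _ => ?_
        rw [Finset.mul_sum, ← Finset.sum_add_distrib, ← Finset.sum_add_distrib]
    _ ≤ BNC + (12 * M + 4) * BRB + 8 * X * BRA := by
        refine add_le_add (add_le_add hNC (mul_le_mul_of_nonneg_left hRB (by positivity))) ?_
        calc ∑ d ∈ R, ∑ d' ∈ R.filter (fun d' => ¬ Nat.Coprime d d'),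
              (4 * (1 / (d : ℝ)) + 4 * (1 / (d' : ℝ)))
            ≤ ∑ d ∈ R, ∑ d' ∈ R, (4 * (1 / (d : ℝ)) + 4 * (1 / (d' : ℝ))) :=
              Finset.sum_le_sum fun d _ => Finset.sum_le_sum_of_subset_of_nonneg
                (Finset.filter_subset _ _) fun d' _ _ => by positivity
          _ = 8 * (R.card : ℝ) * ∑ d ∈ R, 1 / (d : ℝ) := by
              simp only [Finset.sum_add_distrib, Finset.sum_const, nsmul_eq_mul, ← Finset.mul_sum]
              ring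
          _ ≤ 8 * X * BRA := by
              refine mul_le_mul (by linarith) hRA
                (Finset.sum_nonneg fun d _ => by positivity) (by positivity)

end Pool.Agent.U913.PL
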