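import Pool.Agent.U913.PL.OfdB
import Pool.Agent.H442R2.BX.Gs
import Pool.Agent.H442R2.BX.Ra
import Pool.Agent.H353R2.Z2

/-!
Project CP, package OFD: off-diagonal terms.
-/

set_option autoImplicit false

namespace Pool.Agent.U913.PL

open Finset Pool.Agent.H442R2 Pool.Agent.H442R2.KF Pool.Agent.W23.DC Pool.Agent.W23.PL
open Pool.Agent.H442R2.BX.TaskTT (Wt_nonneg Wt_le_one nuS_nonneg nuS_le)

lemma sqf_lcm {a b : ℕ} (ha : Squarefree a) (hb : Squarefree b) : Squarefree (Nat.lcm a b) := by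
  have h0 : Nat.lcm a b ≠ 0 := Nat.lcm_ne_zero ha.ne_zero hb.ne_zero
  rw [Nat.squarefree_iff_factorization_le_one h0]
  intro p
  rw [Nat.factorization_lcm ha.ne_zero hb.ne_zero]
  simp only [Finsupp.sup_apply]
  exact sup_le ((Nat.squarefree_iff_factorization_le_one ha.ne_zero).1 ha p)
    ((Nat.squarefree_iff_factorization_le_one hb.ne_zero).1 hb p)

lemma quad_dvd (q₁ q₂ e e' : ℕ) :
    Nat.lcm (Nat.lcm q₁ q₂) (Nat.lcm e e') ∣ (q₁ * q₂) * (e * e') :=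
  (Nat.lcm_dvd_mul _ _).trans (mul_dvd_mul (Nat.lcm_dvd_mul _ _) (Nat.lcm_dvd_mul _ _))

lemma Rf_mul (c c' : ℕ → ℝ) (D0 X : ℕ) (a a' n : ℤ) (hc : ∀ d, c d ≠ 0 → D0 < d)
    (hc' : ∀ d, c' d ≠ 0 → D0 < d) :
    BX.Rf c X a n * BX.Rf c' X a' n = AA c c' D0 X a a' n + BN c c' D0 X a a' n := by
  have h1 : ∀ (u : ℕ → ℝ) (b : ℤ), (∀ d, u d ≠ 0 → D0 < d) →
      BX.Rf u X b n = ∑ d ∈ Ioc D0 X, u d * BX.dl d (n - b) := by
    intro u b hu
    unfold BX.Rf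
    symm
    refine Finset.sum_subset ?_ ?_
    · intro d hd
      rw [Finset.mem_Ioc] at hd
      rw [Finset.mem_Icc]
      omega
    · intro d hd hd'
      have h0 : u d = 0 := by
        by_contra h
        rw [Finset.mem_Icc] at hd
        exact hd' (Finset.mem_Ioc.2 ⟨hu d h, hd.2⟩)
      rw [h0, zero_mul]
  rw [h1 c a hc, h1 c' a' hc', Finset.sum_mul_sum]
  unfold AA BN
  rw [← Finset.sum_add_distrib]
  refine Finset.sum_congr rfl fun d _ => ?_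
  rw [Finset.sum_filter_add_sum_filter_not]
  refine Finset.sum_congr rfl fun d' _ => ?_
  ring

lemma log_sq_le (s : ℝ) (hs : 0 < s) (N : ℕ) :
    Real.log N ^ 2 ≤ 4 / s ^ 2 * (N : ℝ) ^ s := by
  have h1 := Real.log_le_rpow_div (x := (N : ℝ)) (by positivity) (half_pos hs)
  have h2 : 0 ≤ Real.log N := Real.log_natCast_nonneg N
  calc Real.log N ^ 2 ≤ ((N : ℝ) ^ (s / 2) / (s / 2)) ^ 2 := pow_le_pow_left₀ h2 h1 2
    _ = 4 / s ^ 2 * ((N : ℝ) ^ (s / 2)) ^ 2 := by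
        field_simp
        ring
    _ = 4 / s ^ 2 * (N : ℝ) ^ s := by
        have h3 : ((N : ℝ) ^ (s / 2)) ^ 2 = (N : ℝ) ^ s := by
          rw [← Real.rpow_natCast ((N : ℝ) ^ (s / 2)) 2, ← Real.rpow_mul (by positivity)]
          congr 1
          push_cast
          ring
        rw [h3]

/-- for one quadruple the bound of TTC -/
lemma quad_bound (θ δ ε₀ η₁ ε₁ η₀ CT : ℝ) (hη₀ : 4 * η₀ ≤ ε₀)
    (hT : ∀ (N q D0 X : ℕ), 2 ≤ N → 1 ≤ q → Odd q → Squarefree q → (q : ℝ) ≤ (N : ℝ) ^ ε₀ →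
    (X : ℝ) ≤ (N : ℝ) ^ θ → 1 ≤ D0 → (X : ℝ) ≤ (N : ℝ) ^ ε₀ * D0 →
    ∀ (b a a' : ℤ), |(b : ℝ)| ≤ q → |(a : ℝ)| ≤ N - (N : ℝ) ^ (1 / 2 : ℝ) →
    |(a' : ℝ)| ≤ N - (N : ℝ) ^ (1 / 2 : ℝ) → a ≠ a' →
    ∀ c c' : ℕ → ℝ, BX.CofO q c → BX.CofO q c' → BX.CofR ((N : ℝ) ^ (ε₁ / 2)) X c →
    BX.CofR ((N : ℝ) ^ (ε₁ / 2)) X c' → Fc N θ δ c c' →
    |∑ d ∈ Ioc D0 X, ∑ d' ∈ (Ioc D0 X).filter (fun d' => Nat.Coprime d d'), c d * c' d' *
      ∑' n : ℤ, (if (q : ℤ) ∣ n - b then Wt N n else 0) * (BX.dl d (n - a) * BX.dl d' (n - a'))| ≤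
      CT * (N : ℝ) ^ (1 - η₁))
    (N z D D0 X : ℕ) (hN : 2 ≤ N) (hz : (z : ℝ) ≤ (N : ℝ) ^ η₀) (hzε : (z : ℝ) < (N : ℝ) ^ ε₁)
    (hD : (D : ℝ) ≤ (N : ℝ) ^ η₀) (hX : (X : ℝ) ≤ (N : ℝ) ^ θ) (hD0 : 1 ≤ D0)
    (hXD : (X : ℝ) ≤ (N : ℝ) ^ ε₀ * D0) (h2 : (2 : ℝ) < (N : ℝ) ^ ε₁) (lam : ℕ → ℝ)
    (hlam : SWs z lam) (P : Finset ℕ) (hP : ∀ p ∈ P, p.Prime ∧ 2 < p ∧ (p : ℝ) < (N : ℝ) ^ ε₁)
    (L : ℝ) (th th' : ℕ → ℝ) (hth : DW P D L th) (hth' : DW P D L th') (a a' : ℤ)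
    (ha : |(a : ℝ)| ≤ N - (N : ℝ) ^ (1 / 2 : ℝ)) (ha' : |(a' : ℝ)| ≤ N - (N : ℝ) ^ (1 / 2 : ℝ))
    (haa : a ≠ a') (c c' : ℕ → ℝ) (hc : BX.CofR ((N : ℝ) ^ (ε₁ / 2)) X c)
    (hc' : BX.CofR ((N : ℝ) ^ (ε₁ / 2)) X c') (hB : ∀ d, c d ≠ 0 → Bl N θ δ ε₁ D0 X d)
    (hB' : ∀ d, c' d ≠ 0 → Bl N θ δ ε₁ D0 X d) (q₁ q₂ e e' : ℕ) (h1 : lam q₁ ≠ 0)
    (h3 : lam q₂ ≠ 0) (h4 : th e ≠ 0) (h5 : th' e' ≠ 0) (k1 : 1 ≤ q₁) (k2 : 1 ≤ q₂) (k3 : 1 ≤ e)
    (k4 : 1 ≤ e') (k5 : q₁ ≤ z) (k6 : q₂ ≤ z) (k7 : e ≤ D) (k8 : e' ≤ D) (b : ℤ) (hb : 0 ≤ b)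
    (hbQ : b < ((Nat.lcm (Nat.lcm q₁ q₂) (Nat.lcm e e') : ℕ) : ℤ)) :
    |∑ d ∈ Ioc D0 X, ∑ d' ∈ (Ioc D0 X).filter (fun d' => Nat.Coprime d d'), c d * c' d' *
      ∑' n : ℤ, (if ((Nat.lcm (Nat.lcm q₁ q₂) (Nat.lcm e e') : ℕ) : ℤ) ∣ n - b then Wt N n else 0) *
        (BX.dl d (n - a) * BX.dl d' (n - a'))| ≤ CT * (N : ℝ) ^ (1 - η₁) := by
  set Q := Nat.lcm (Nat.lcm q₁ q₂) (Nat.lcm e e') with hQ
  have hQd : Q ∣ (q₁ * q₂) * (e * e') := quad_dvd q₁ q₂ e e'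
  have hN0 : (0 : ℝ) < N := by exact_mod_cast (by omega : 0 < N)
  have hN1 : (1 : ℝ) ≤ N := by exact_mod_cast (by omega : 1 ≤ N)
  have hQ0 : 0 < Q := Nat.lcm_pos (Nat.lcm_pos (by omega) (by omega))
    (Nat.lcm_pos (by omega) (by omega))
  obtain ⟨-, -, o1⟩ := hlam.sw.supp q₁ h1
  obtain ⟨-, -, o2⟩ := hlam.sw.supp q₂ h3
  obtain ⟨s3, -, p3⟩ := hth.supp e h4
  obtain ⟨s4, -, p4⟩ := hth'.supp e' h5
  have hoe : ∀ x : ℕ, (∀ p : ℕ, p.Prime → p ∣ x → p ∈ P) → Odd x := by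
    intro x hx
    rw [← Nat.not_even_iff_odd]
    intro hev
    have := (hP 2 (hx 2 Nat.prime_two hev.two_dvd)).2.1
    omega
  have hQodd : Odd Q := ((o1.mul o2).mul ((hoe e p3).mul (hoe e' p4))).of_dvd_nat hQd
  have hQsq : Squarefree Q :=
    sqf_lcm (sqf_lcm (hlam.sqf q₁ h1) (hlam.sqf q₂ h3)) (sqf_lcm s3 s4)
  have hQle : (Q : ℝ) ≤ (N : ℝ) ^ ε₀ := by
    have g1 : Q ≤ (q₁ * q₂) * (e * e') := Nat.le_of_dvd (by positivity) hQd
    have g2 : Q ≤ (z * z) * (D * D) := g1.trans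
      (Nat.mul_le_mul (Nat.mul_le_mul k5 k6) (Nat.mul_le_mul k7 k8))
    have g3 : (Q : ℝ) ≤ ((z : ℝ) * z) * (D * D) := by exact_mod_cast g2
    calc (Q : ℝ) ≤ ((z : ℝ) * z) * (D * D) := g3
      _ ≤ ((N : ℝ) ^ η₀ * (N : ℝ) ^ η₀) * ((N : ℝ) ^ η₀ * (N : ℝ) ^ η₀) := by gcongr
      _ = (N : ℝ) ^ (4 * η₀) := by
          rw [← Real.rpow_add hN0, ← Real.rpow_add hN0]
          congr 1
          ring
      _ ≤ (N : ℝ) ^ ε₀ := Real.rpow_le_rpow_of_exponent_le hN1 hη₀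
  have hlogN : 0 < Real.log N := Real.log_pos (by exact_mod_cast (by omega : 1 < N))
  have hcop : ∀ d : ℕ, Bl N θ δ ε₁ D0 X d → Nat.Coprime d (2 * Q) := by
    intro d hd
    obtain ⟨-, -, -, hd4, -⟩ := hd
    refine Nat.Coprime.symm (Nat.coprime_of_dvd ?_)
    intro p hp hp1 hp2
    have g1 := hd4 p hp hp2
    have hp0 : (0 : ℝ) < p := by exact_mod_cast hp.pos
    have g2 : (N : ℝ) ^ ε₁ ≤ p := by
      unfold tt at g1
      rw [le_div_iff₀ hlogN] at g1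
      rw [Real.rpow_def_of_pos hN0, ← Real.le_log_iff_exp_le hp0]
      linarith
    rcases (Nat.Prime.dvd_mul hp).1 hp1 with g3 | g3
    · have g4 : p ≤ 2 := Nat.le_of_dvd (by norm_num) g3
      have g5 : (p : ℝ) ≤ 2 := by exact_mod_cast g4
      linarith
    · have g4 : p ∣ (q₁ * q₂) * (e * e') := g3.trans hQd
      rcases (Nat.Prime.dvd_mul hp).1 g4 with g5 | g5
      · have g6 : p ≤ z := by
          rcases (Nat.Prime.dvd_mul hp).1 g5 with g6 | g6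
          · exact (Nat.le_of_dvd (by omega) g6).trans k5
          · exact (Nat.le_of_dvd (by omega) g6).trans k6
        have g7 : (p : ℝ) ≤ z := by exact_mod_cast g6
        linarith
      · have g6 : p ∈ P := by
          rcases (Nat.Prime.dvd_mul hp).1 g5 with g6 | g6
          · exact p3 p hp g6
          · exact p4 p hp g6
        have g7 := (hP p g6).2.2
        linarith
  have hFc : Fc N θ δ c c' := by
    by_cases h : θ ≤ 51 / 100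
    · exact Or.inl h
    · refine Or.inr ⟨fun d hd => ?_, fun d hd => ?_⟩
      · exact ((hB d hd).2.2.2.2).resolve_left h
      · exact ((hB' d hd).2.2.2.2).resolve_left h
  have hbr : |(b : ℝ)| ≤ (Q : ℝ) := by
    rw [abs_of_nonneg (by exact_mod_cast hb)]
    exact_mod_cast hbQ.le
  exact hT N Q D0 X hN hQ0 hQodd hQsq hQle hX hD0 hXD b a a' hbr ha ha' haa c c'
    ⟨hc.bd, fun d hd => hcop d (hB d hd)⟩ ⟨hc'.bd, fun d hd => hcop d (hB' d hd)⟩ hc hc' hFc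

/-- the part away from the coprime pairs, pointwise -/
lemma second_pt (N D0 X : ℕ) (y : ℝ) (a a' n : ℤ) (haa : a ≠ a')
    (c c' : ℕ → ℝ) (hcb : ∀ d, |c d| ≤ 1) (hcb' : ∀ d, |c' d| ≤ 1)
    (hD : ∀ d, c d ≠ 0 → D0 < d) (hD' : ∀ d, c' d ≠ 0 → D0 < d)
    (hcR : ∀ d, c d ≠ 0 → d ∈ BX.roughs y X) (hcR' : ∀ d, c' d ≠ 0 → d ∈ BX.roughs y X)
    (C0 C5 : ℝ) (hC0 : 0 < C0) (hC5 : 0 < C5)
    (hrc : ∀ b m : ℤ, |(b : ℝ)| ≤ N → |(m : ℝ)| ≤ N → m ≠ b →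
      ((BX.rd y X (m - b)).card : ℝ) ≤ 2 * C0)
    (hra : ∑ d ∈ BX.roughs y X, 1 / (d : ℝ) ≤ C5)
    (ha : |(a : ℝ)| ≤ N) (ha' : |(a' : ℝ)| ≤ N) :
    (n ≠ a → n ≠ a' → |BX.rf c X a n * BX.rf c' X a' n - AA c c' D0 X a a' n| ≤
      ∑ d ∈ BX.roughs y X, ∑ d' ∈ (BX.roughs y X).filter (fun d' => ¬ Nat.Coprime d d'),
        gd d (n - a) * gd d' (n - a')) ∧
    (|(n : ℝ)| ≤ N → |BX.rf c X a n * BX.rf c' X a' n - AA c c' D0 X a a' n| ≤
      ((X : ℝ) + C5) * (2 * C0 + C5)) := by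
  have hBN : n ≠ a → n ≠ a' → BX.rf c X a n * BX.rf c' X a' n - AA c c' D0 X a a' n =
      BN c c' D0 X a a' n := by
    intro h1 h2
    unfold BX.rf
    rw [if_neg h1, if_neg h2, Rf_mul c c' D0 X a a' n hD hD']
    ring
  constructor
  · intro h1 h2
    rw [hBN h1 h2]
    exact pair_bound (Ioc D0 X) (BX.roughs y X) (fun d d' => ¬ Nat.Coprime d d') c c' hcb hcb'
      hcR hcR' (n - a) (n - a')
  · intro hn
    have hall : |BX.rf c X a n * BX.rf c' X a' n - AA c c' D0 X a a' n| ≤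
        (∑ d ∈ BX.roughs y X, gd d (n - a)) * (∑ d ∈ BX.roughs y X, gd d (n - a')) := by
      by_cases h1 : n = a ∨ n = a'
      · have h0 : BX.rf c X a n * BX.rf c' X a' n = 0 := by
          unfold BX.rf
          rcases h1 with h1 | h1
          · rw [if_pos h1, zero_mul]
          · rw [if_pos h1, mul_zero]
        rw [h0, zero_sub, abs_neg]
        exact all_bound (Ioc D0 X) (BX.roughs y X) (fun d d' => Nat.Coprime d d') c c' hcb hcb'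
          hcR hcR' (n - a) (n - a')
      · push Not at h1
        rw [hBN h1.1 h1.2]
        exact all_bound (Ioc D0 X) (BX.roughs y X) (fun d d' => ¬ Nat.Coprime d d') c c' hcb hcb'
          hcR hcR' (n - a) (n - a')
    refine hall.trans ?_
    rw [sum_gd, sum_gd]
    have hX' : ∀ m : ℤ, ((BX.rd y X m).card : ℝ) ≤ X := by
      intro m
      have : (BX.rd y X m).card ≤ X :=
        (Finset.card_filter_le _ _).trans (BX.TaskNC.card_roughs y X)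
      exact_mod_cast this
    have hra0 : 0 ≤ ∑ d ∈ BX.roughs y X, 1 / (d : ℝ) := Finset.sum_nonneg fun d _ => by positivity
    by_cases h1 : n = a
    · have h2 : n ≠ a' := by rw [h1]; exact haa
      have g1 := hX' (n - a)
      have g2 := hrc a' n ha' hn h2
      exact mul_le_mul (add_le_add g1 hra) (add_le_add g2 hra) (by positivity) (by positivity)
    · have g1 := hX' (n - a')
      have g2 := hrc a n ha hn h1
      rw [mul_comm]
      exact mul_le_mul (add_le_add g1 hra) (add_le_add g2 hra) (by positivity) (by positivity)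

/-- the sum away from the coprime pairs -/
lemma second_sum (N z D D0 X : ℕ) (hN : 1 ≤ N) (y : ℝ) (a a' : ℤ)
    (c c' lam th th' : ℕ → ℝ) (hl : ∀ q, |lam q| ≤ 1) (L : ℝ) (hL : 0 ≤ L)
    (hth : ∀ e, |th e| ≤ L) (hth' : ∀ e, |th' e| ≤ L) (K U S : ℝ) (hK : 0 ≤ K) (hU : 0 ≤ U)
    (ha : |(a : ℝ)| ≤ N) (ha' : |(a' : ℝ)| ≤ N)
    (hG : ∀ n : ℤ, n ≠ 0 → n ≠ a → n ≠ a' → Wt N n * |GG lam th th' z D a a' n| ≤
      K * Wt (2 * N) n)
    (h1 : ∀ n : ℤ, n ≠ a → n ≠ a' → |BX.rf c X a n * BX.rf c' X a' n - AA c c' D0 X a a' n| ≤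
      ∑ d ∈ BX.roughs y X, ∑ d' ∈ (BX.roughs y X).filter (fun d' => ¬ Nat.Coprime d d'),
        gd d (n - a) * gd d' (n - a'))
    (h2 : ∀ n : ℤ, |(n : ℝ)| ≤ N →
      |BX.rf c X a n * BX.rf c' X a' n - AA c c' D0 X a a' n| ≤ U)
    (hS1 : Summable (fun n : ℤ => Wt (2 * N) n * ∑ d ∈ BX.roughs y X,
      ∑ d' ∈ (BX.roughs y X).filter (fun d' => ¬ Nat.Coprime d d'),
        gd d (n - a) * gd d' (n - a')))
    (hS2 : ∑' n : ℤ, Wt (2 * N) n * ∑ d ∈ BX.roughs y X,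
      ∑ d' ∈ (BX.roughs y X).filter (fun d' => ¬ Nat.Coprime d d'),
        gd d (n - a) * gd d' (n - a') ≤ S) :
    |∑' n : ℤ, Wt N n * (GG lam th th' z D a a' n *
      (BX.rf c X a n * BX.rf c' X a' n - AA c c' D0 X a a' n))| ≤
      K * S + 3 * ((z : ℝ) ^ 2 * (D : ℝ) ^ 2 * L ^ 2 * U) := by
  set W : ℝ := (z : ℝ) ^ 2 * (D : ℝ) ^ 2 * L ^ 2 * U with hW
  have hW0 : 0 ≤ W := by positivity
  set BB : ℤ → ℝ := fun n => ∑ d ∈ BX.roughs y X,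
      ∑ d' ∈ (BX.roughs y X).filter (fun d' => ¬ Nat.Coprime d d'),
        gd d (n - a) * gd d' (n - a') with hBB
  have hBB0 : ∀ n, 0 ≤ BB n := fun n => Finset.sum_nonneg fun d _ => Finset.sum_nonneg
    fun d' _ => mul_nonneg (gd_nonneg _ _) (gd_nonneg _ _)
  have hs : HasSum (fun n : ℤ => K * (Wt (2 * N) n * BB n) + (if n = 0 then W else 0) +
      (if n = a then W else 0) + (if n = a' then W else 0))
      (K * (∑' n : ℤ, Wt (2 * N) n * BB n) + W + W + W) :=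
    (((hS1.hasSum.mul_left K).add (hasSum_ite_eq 0 W)).add (hasSum_ite_eq a W)).add
      (hasSum_ite_eq a' W)
  have hb : |∑' n : ℤ, Wt N n * (GG lam th th' z D a a' n *
      (BX.rf c X a n * BX.rf c' X a' n - AA c c' D0 X a a' n))| ≤
      K * (∑' n : ℤ, Wt (2 * N) n * BB n) + W + W + W := by
    rw [← Real.norm_eq_abs]
    refine tsum_of_norm_bounded hs fun n => ?_
    have hWn := Wt_nonneg N n
    have hWn1 := Wt_le_one N n
    have hWn2 := Wt_nonneg (2 * N) n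
    rw [Real.norm_eq_abs, abs_mul, abs_mul, abs_of_nonneg hWn]
    have hKB : 0 ≤ K * (Wt (2 * N) n * BB n) := mul_nonneg hK (mul_nonneg hWn2 (hBB0 n))
    have i0 : (0 : ℝ) ≤ (if n = 0 then W else 0) := by split_ifs <;> first | exact hW0 | exact le_rfl
    have i1 : (0 : ℝ) ≤ (if n = a then W else 0) := by split_ifs <;> first | exact hW0 | exact le_rfl
    have i2 : (0 : ℝ) ≤ (if n = a' then W else 0) := by split_ifs <;> first | exact hW0 | exact le_rfl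
    have hexc : |(n : ℝ)| ≤ N → Wt N n * (|GG lam th th' z D a a' n| *
        |BX.rf c X a n * BX.rf c' X a' n - AA c c' D0 X a a' n|) ≤ W := by
      intro hn
      have g1 := GG_le_triv lam th th' z D a a' n hl L hL hth hth'
      have g2 := h2 n hn
      calc Wt N n * (|GG lam th th' z D a a' n| *
            |BX.rf c X a n * BX.rf c' X a' n - AA c c' D0 X a a' n|)
          ≤ 1 * (((z : ℝ) ^ 2 * (D : ℝ) ^ 2 * L ^ 2) * U) := by
            refine mul_le_mul hWn1 ?_ (by positivity) zero_le_one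
            exact mul_le_mul g1 g2 (abs_nonneg _) (by positivity)
        _ = W := by rw [hW]; ring
    by_cases n0 : n = 0
    · have g := hexc (by rw [n0]; simp)
      rw [if_pos n0]
      linarith
    by_cases n1 : n = a
    · have g := hexc (by rw [n1]; exact ha)
      rw [if_pos n1]
      linarith
    by_cases n2 : n = a'
    · have g := hexc (by rw [n2]; exact ha')
      rw [if_pos n2]
      linarith
    have g1 := hG n n0 n1 n2
    have g2 := h1 n n1 n2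
    have g3 : Wt N n * (|GG lam th th' z D a a' n| *
        |BX.rf c X a n * BX.rf c' X a' n - AA c c' D0 X a a' n|) ≤
        K * (Wt (2 * N) n * BB n) := by
      calc Wt N n * (|GG lam th th' z D a a' n| *
            |BX.rf c X a n * BX.rf c' X a' n - AA c c' D0 X a a' n|)
          = (Wt N n * |GG lam th th' z D a a' n|) *
            |BX.rf c X a n * BX.rf c' X a' n - AA c c' D0 X a a' n| := by ring
        _ ≤ (K * Wt (2 * N) n) * BB n :=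
            mul_le_mul g1 g2 (abs_nonneg _) (mul_nonneg hK hWn2)
        _ = _ := by ring
    linarith
  refine hb.trans ?_
  have h3 : K * (∑' n : ℤ, Wt (2 * N) n * BB n) ≤ K * S := mul_le_mul_of_nonneg_left hS2 hK
  linarith

end Pool.Agent.U913.PL
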